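import Pool.Agent.Lib.MP_d439b2_co.ON2.Spec
import Pool.Agent.Lib.MP_d439b2_co.ON.Asm

/-!
# MP_d439b2_co, ON2: assembly of Theorem O1 (`K3:0,1,02`) (helper28)
-/

set_option autoImplicit false

namespace Pool.Agent.MPd439b2.ON2

open Pool.Agent.MPd439b2
open Pool.Agent.MPd439b2.Rep
open Pool.Agent.MPd439b2.W
open Pool.Agent.MPd439b2.A0
open Pool.Agent.MPd439b2.ON

/-- all parts of the proof -/
structure Pts : Prop where
  ram : W.S_RamC
  jb : ON.S_JB
  jab : ON.S_JAB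
  jce : ON.S_JCE
  jff : ON.S_JFF
  u1 : ON.S_U1
  u2 : ON.S_U2
  ba : ON.S_Ba
  ch : ON.S_Ch
  f0 : ON.S_F0
  ri : ON.S_RI
  lx : ON.S_LX
  ls : ON.S_LS
  kx : ON.S_KX
  tw : ON.S_Tw
  pa : ON.S_Pa
  ty : ON.S_Ty
  hk : S_HK
  hb : S_HB
  jg : S_JG
  fr : S_Fr
  oe : S_OE
  so : S_So
  ne : S_Ne
  le : S_Le
  cl : S_Cl
  f2 : S_F2
  en : S_En
  pi : S_Pi
  cu : S_Cu
  gk : S_Gk
  eq : S_Eq
  nm : S_NM

theorem asmTO (P : Pts) : S_TO := by
  intro t N s
  have cfr : C_Fr := P.fr P.ram P.ba P.ch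
  have coe : C_OE := P.oe P.ram P.ba
  have ceq : C_Eq := P.eq P.u1 cfr (P.ty P.ram) (P.cl P.ram P.ba P.oe) P.gk
  set n := 3 * t + 4 with hn
  obtain ⟨c₁, hc₁⟩ := P.nm P.u1 cfr coe (P.ne P.ram) (P.le P.ram) ceq P.pa P.so P.gk t N n (by omega)
  intro β
  obtain ⟨n₁, hn₁⟩ := hc₁ (fun c => β (c + 2 * s))
  refine ⟨c₁ + 2 * s, n₁ + 1, ?_⟩
  intro V _ D hy tw nk link
  rcases isEmpty_or_nonempty V with hV | hV
  · refine ⟨Set.univ, fun x _ _ _ => hV.elim (x 0), fun k _ => P.ls _ V D Set.univ ?_⟩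
    rw [show (Set.univ : Set V) = ∅ from Set.eq_empty_of_isEmpty _]
    simp
  have env : En D t n s := P.en P.u2 P.f0 P.f2 t n s V D tw (by omega) nk
  obtain ⟨π, hπ, hcard⟩ := P.pi t n s V D env
  have cutl : ∀ c, ∀ A A' : Set V, Pt (Sh D t n) A A' → LK.rk D A A' ≤ c →
      LK.rk D (hat (Sh D t n) π A) (hat (Sh D t n) π A') ≤ c + 2 * s := by
    intro c A A' hA hr
    exact (P.cu t n s V D π env hπ A A' hA).trans (by omega)
  have link' : Link (fun c => β (c + 2 * s)) c₁ (D.induce (Sh D t n)) :=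
    P.kx P.ri (fun c => c + 2 * s) β c₁ (c₁ + 2 * s) V D (Sh D t n) π hπ.2
      (fun c hc => by show c + 2 * s ≤ c₁ + 2 * s; omega)
      (fun c _ A A' hA hr => cutl c A A' hA hr) link
  refine ⟨Sh D t n, fun x y hxy him => ?_, fun k hk => ?_⟩
  · refine hn₁ c₁ le_rfl V D hy tw link' x y ?_ (fun i hi => hxy i (by omega))
    intro i hi j hj
    exact him i (by omega) j (by omega)
  · refine P.lx P.ri k (s + 1) (k + 2 * s) V D (Sh D t n) π hπ.2 (fun v _ => ?_) (cutl k) hk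
    apply P.ls (s + 1) V D
    have h1 : hat (Sh D t n) π {v} = {v} ∪ {w | w ∉ Sh D t n ∧ π w ∈ ({v} : Set V)} := rfl
    rw [h1]
    refine (Set.ncard_union_le _ _).trans ?_
    have h2 : ({w | w ∉ Sh D t n ∧ π w ∈ ({v} : Set V)} : Set V).ncard ≤ s := hcard v
    simp only [Set.ncard_singleton]
    omega

/-! ### The theorem for `G` -/

theorem tp_emb {V W : Type} {G : SimpleGraph V} {G' : SimpleGraph W} {m : ℕ} {s t e : Bool}
    {a b : ℕ → W} (f : W → V) (hf : Function.Injective f)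
    (hG : ∀ a b, G'.Adj a b ↔ G.Adj (f a) (f b)) (h : TP G' m s t e a b) :
    TP G m s t e (fun i => f (a i)) (fun i => f (b i)) where
  dis i hi j hj h' := h.dis i hi j hj (hf h')
  ia i hi j hj hij h' := h.ia i hi j hj hij (hf h')
  ib i hi j hj hij h' := h.ib i hi j hj hij (hf h')
  aa i hi j hj hij := (hG _ _).symm.trans (h.aa i hi j hj hij)
  bb i hi j hj hij := (hG _ _).symm.trans (h.bb i hi j hj hij)
  ab i hi j hj := (hG _ _).symm.trans (h.ab i hi j hj)

/-- no thin spider -/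
theorem fhS_of {V : Type} {D : SimpleGraph V} {m N : ℕ} (hN : 2 ≤ N) (hm : m ≤ N)
    (h : NoTP Dᶜ m true false false) : FhS D N := by
  intro a v ha hv hc
  have d1 : ∀ i < N, ∀ j < N, a i ≠ v j := by
    intro i hi j hj he
    obtain ⟨k, hk, hki⟩ : ∃ k < N, k ≠ j := by
      by_cases h0 : j = 0
      · exact ⟨1, by omega, by omega⟩
      · exact ⟨0, by omega, by omega⟩
    have h1 : D.Adj (a k) (v j) := (hc k hk j hj).2 hki
    rw [← he] at h1
    exact ha k hk i hi h1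
  have d2 : ∀ i < N, ∀ j < N, i ≠ j → a i ≠ a j := by
    intro i hi j hj hij he
    have h1 : D.Adj (a j) (v i) := (hc j hj i hi).2 (Ne.symm hij)
    rw [← he] at h1
    exact (hc i hi i hi).1 h1 rfl
  have d3 : ∀ i < N, ∀ j < N, i ≠ j → v i ≠ v j := by
    intro i hi j hj hij he
    have h1 := hv i hi j hj hij
    rw [he] at h1
    exact D.irrefl h1
  refine h a v ⟨fun i hi j hj => d1 i (by omega) j (by omega),
    fun i hi j hj => d2 i (by omega) j (by omega), fun i hi j hj => d3 i (by omega) j (by omega),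
    fun i hi j hj hij => ?_, fun i hi j hj hij => ?_, fun i hi j hj => ?_⟩
  · rw [SimpleGraph.compl_adj]
    exact iff_of_true ⟨d2 i (by omega) j (by omega) hij, ha i (by omega) j (by omega)⟩ rfl
  · rw [SimpleGraph.compl_adj]
    exact iff_of_false (fun h' => h'.2 (hv i (by omega) j (by omega) hij)) Bool.false_ne_true
  · rw [SimpleGraph.compl_adj, hc i (by omega) j (by omega)]
    constructor
    · rintro ⟨-, h2⟩
      exact iff_of_true (not_not.1 h2) rfl
    · intro h'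
      exact ⟨d1 i (by omega) j (by omega), fun h2 => h2 (h'.2 rfl)⟩

/-- no `n K_2` -/
theorem nk_of {V : Type} {D : SimpleGraph V} {m : ℕ} (h : NoTP Dᶜ m false false false) :
    NK D m := by
  intro a b h1 h2
  have d1 : ∀ i < m, ∀ j < m, a i ≠ b j := by
    intro i hi j hj he
    by_cases hij : i = j
    · subst hij
      exact (h2 i hi).1 he
    · have := (h1 i hi j hj hij).2.2
      rw [he] at this
      exact D.irrefl this
  refine h a b ⟨d1, fun i hi j hj hij he => ?_, fun i hi j hj hij he => ?_,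
    fun i hi j hj hij => ?_, fun i hi j hj hij => ?_, fun i hi j hj => ?_⟩
  · have := (h1 i hi j hj hij).1
    rw [he] at this
    exact D.irrefl this
  · have := (h1 i hi j hj hij).2.1
    rw [he] at this
    exact D.irrefl this
  · rw [SimpleGraph.compl_adj]
    exact iff_of_false (fun h' => h'.2 (h1 i hi j hj hij).1) Bool.false_ne_true
  · rw [SimpleGraph.compl_adj]
    exact iff_of_false (fun h' => h'.2 (h1 i hi j hj hij).2.1) Bool.false_ne_true
  · rw [SimpleGraph.compl_adj]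
    constructor
    · rintro ⟨-, h3⟩
      by_cases hij : i = j
      · exact iff_of_true hij rfl
      · exact absurd (h1 i hi j hj hij).2.2 h3
    · intro h'
      have hij : i = j := h'.2 rfl
      subst hij
      exact ⟨d1 i hi i hi, (h2 i hi).2⟩

theorem hy_of (P : Pts) {t m : ℕ} {V : Type} {D : SimpleGraph V} (h1 : ¬ IMS K302 Dᶜ Set.univ)
    (h2 : ¬ IMS (JP t) Dᶜ Set.univ) (h3 : NoTP Dᶜ m true false false) : HY D t (m + 4) := by
  have f1 := P.hk V D h1
  have f2 := P.hb V D (m + 4) (by omega) f1.1 f1.2 (fhS_of (by omega) (by omega) h3)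
  exact ⟨⟨(P.jab P.jb t V D h2).1, (P.jab P.jb t V D h2).2, (P.jce P.jb t V D h2).1,
    (P.jce P.jb t V D h2).2.1, (P.jce P.jb t V D h2).2.2, P.jff P.jb t V D h2⟩,
    P.jg P.jb t V D h2, f2.1, f1.1, f2.2.1, f2.2.2⟩

/-- **Theorem O1** as a reduction: the co-matchings are removed when the thin spiders and `n K_2` are excluded. -/
theorem red (P : Pts) {t : ℕ} (T : Set Ty) (t1 : (true, false, false) ∈ T)
    (t2 : (false, false, false) ∈ T) (hB : BLT K302 (JP t) (insert (true, true, true) T)) :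
    BLT K302 (JP t) T := by
  refine blt_replace (true, true, true) (fun m hm β => ?_) hB
  obtain ⟨c₀, n₁, hc⟩ := asmTO P t (m + 4) m (fun c => β (c + 1))
  refine ⟨max n₁ m, fun k => ⟨c₀ + 1, 2 ^ (2 ^ (k + 1 + 2 * m) + (m + 1)) + 1 + 1, ?_⟩⟩
  intro V _ G hG hT link
  have l1 : Link (fun c => β (c + 1)) c₀ Gᶜ := link_co link
  obtain ⟨S, hTw, hLay, hLk⟩ := P.tw P.ri P.lx P.kx V Gᶜ
  have l2 := hLk _ _ l1
  have inj1 : Function.Injective (Subtype.val : S → V) := Subtype.val_injective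
  have c1 : ∀ a b : S, (Gᶜ.induce S)ᶜ.Adj a b ↔ G.Adj a.1 b.1 := fun a b => adj_cc _ inj1 a b
  have n1 : ¬ IMS K302 (Gᶜ.induce S)ᶜ Set.univ := fun h => hG.1 (ims_emb _ inj1 c1 h)
  have n2 : ¬ IMS (JP t) (Gᶜ.induce S)ᶜ Set.univ := fun h => hG.2 (ims_emb _ inj1 c1 h)
  have n3 : NoTP (Gᶜ.induce S)ᶜ m true false false := fun a b h =>
    hT _ t1 _ _ (tp_emb _ inj1 c1 h)
  have n4 : NoTP (Gᶜ.induce S)ᶜ m false false false := fun a b h =>
    hT _ t2 _ _ (tp_emb _ inj1 c1 h)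
  obtain ⟨S₂, hS₂, hL₂⟩ := hc S (Gᶜ.induce S) (hy_of P n1 n2 n3) hTw (nk_of n4) l2
  have inj2 : Function.Injective (fun a : S₂ => (a.1 : V)) := fun a b h =>
    Subtype.ext (Subtype.ext h)
  have c2 : ∀ a b : S₂, ((Gᶜ.induce S).induce S₂)ᶜ.Adj a b ↔ G.Adj (a.1 : V) (b.1 : V) :=
    fun a b => adj_cc (fun a : S₂ => (a.1 : V)) inj2 a b
  refine ⟨S₂, inferInstance, ((Gᶜ.induce S).induce S₂)ᶜ, ⟨fun h => hG.1 (ims_emb _ inj2 c2 h),
    fun h => hG.2 (ims_emb _ inj2 c2 h)⟩, ?_, fun hk => ?_⟩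
  · rintro τ (rfl | hτ)
    · refine NoTP.mono (le_max_left _ _) ?_
      intro x y hxy
      have him := hxy.im
      rw [compl_compl] at him
      exact hS₂ (fun i => (x i).1) (fun i => (y i).1) (fun i _ => ⟨(x i).2, (y i).2⟩) him
    · refine NoTP.mono (le_max_right _ _) ?_
      exact fun a b h => hT τ hτ _ _ (tp_emb _ inj2 c2 h)
  · have k1 := W.layC _ _ _ _ hk
    rw [compl_compl] at k1
    have k2 := hL₂ _ k1
    have k3 := hLay _ k2
    have k4 := W.layC _ _ _ _ k3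
    rw [compl_compl] at k4
    exact k4

end Pool.Agent.MPd439b2.ON2
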