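import Pool.Agent.Lib.MP_d439b2_co.ON2.Spec
import Pool.Agent.Lib.MP_d439b2_co.ON.Sel

/-!
# MP_d439b2_co, ON2/Cl: the matching of the exceptional vertices has no opposite pair (helper46)
-/

set_option autoImplicit false

namespace Pool.Agent.MPd439b2.ON2

open Pool.Agent.MPd439b2
open Pool.Agent.MPd439b2.Rep
open Pool.Agent.MPd439b2.W
open Pool.Agent.MPd439b2.A0
open Pool.Agent.MPd439b2.ON

variable {V : Type}

private theorem clSub {D : SimpleGraph V} {U : Set V} {w : V} {m M : ℕ} {P Q u : ℕ → V}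
    {σ : ℕ → ℕ} (fd : FD D U w M P Q u) (hσ : Incr m M σ) :
    FD D U w m (P ∘ σ) (Q ∘ σ) (u ∘ σ) where
  pq := ⟨SelAux.im_sub fd.pq.1 hσ, fun i hi => fd.pq.2 _ (hσ.2 i hi)⟩
  up := SelAux.im_sub fd.up hσ
  uU := fun k hk => fd.uU _ (hσ.2 k hk)
  uq := fun k hk j hj => fd.uq _ (hσ.2 k hk) _ (hσ.2 j hj)
  gc := fun k hk => fd.gc _ (hσ.2 k hk)
  wd := fun k hk => fd.wd _ (hσ.2 k hk)

private theorem clMain {D : SimpleGraph V} {t N : ℕ} (hY : HY D t N) {U : Set V} {w z : V}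
    {P Q u : ℕ → V} (fd : FD D U w ((t + 2 + N) + (t + 2 + N)) P Q u)
    (hz : ∀ k < (t + 2 + N) + (t + 2 + N), ¬ D.Adj z (u k) ∧ D.Adj z (P k)) : False := by
  rcases SelAux.split (fun k => D.Adj z (Q k)) (t + 2 + N) (t + 2 + N) with ⟨τ, hτ, h⟩ | ⟨τ, hτ, h⟩
  · have fd' := clSub fd hτ
    have hz' : ∀ k < t + 2 + N, ¬ D.Adj z ((u ∘ τ) k) ∧ D.Adj z ((P ∘ τ) k) := fun k hk =>
      hz _ (hτ.2 k hk)
    have hq : ∀ k < t + 2 + N, D.Adj z ((Q ∘ τ) k) := h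
    by_cases hzw : D.Adj z w
    · exact hY.he (P ∘ τ) (Q ∘ τ) (u ∘ τ) w z (SelAux.im_mono fd'.pq.1 (by omega))
        (SelAux.im_mono fd'.up (by omega))
        (fun i hi j hj => fd'.uq i (by omega) j (by omega)) hzw
        (fun i hi => ⟨(hz' i (by omega)).2, hq i (by omega), (hz' i (by omega)).1,
          (fd'.wd i (by omega)).1, (fd'.wd i (by omega)).2.1, (fd'.wd i (by omega)).2.2⟩)
    · refine hY.jf.jE (P ∘ τ) (Q ∘ τ) (u ∘ τ) w z (SelAux.im_mono fd'.pq.1 (by omega))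
        (SelAux.im_mono fd'.up (by omega))
        (fun i hi j hj => fd'.uq i (by omega) j (by omega)) ?_ hzw
        (fun i hi => ⟨(hz' i (by omega)).2, hq i (by omega), (hz' i (by omega)).1,
          (fd'.wd i (by omega)).1, (fd'.wd i (by omega)).2.1⟩)
      intro e
      have h1 := (fd'.wd 0 (by omega)).2.2
      rw [← e] at h1
      exact (hz' 0 (by omega)).1 h1
  · have fd' := clSub fd hτ
    have hz' : ∀ k < t + 2 + N, ¬ D.Adj z ((u ∘ τ) k) ∧ D.Adj z ((P ∘ τ) k) := fun k hk =>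
      hz _ (hτ.2 k hk)
    have hq : ∀ k < t + 2 + N, ¬ D.Adj z ((Q ∘ τ) k) := h
    exact hY.jf.jD (P ∘ τ) (Q ∘ τ) (u ∘ τ) z (SelAux.im_mono fd'.pq.1 (by omega))
      (SelAux.im_mono fd'.up (by omega))
      (fun i hi j hj => fd'.uq i (by omega) j (by omega))
      (fun i hi => ⟨(hz' i (by omega)).2, hq i (by omega), (hz' i (by omega)).1⟩)

/-- **Cl.** -/
theorem pCl : S_Cl := by
  intro hRam hBa hOE t N
  obtain ⟨h, hh⟩ := hOE hRam hBa t N
    (((t + 2 + N) + (t + 2 + N)) + ((t + 2 + N) + (t + 2 + N)))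
  refine ⟨h, ?_⟩
  intro V D hY n U U' w P Q u fd hU' huP v' w' p' q' hv' hw' hpq
  obtain ⟨σ, hσ, hO, hσ2⟩ := hh V D hY n U' hU' v' w' u P p' q' hv' hw' ⟨fd.up, huP⟩ hpq
  have fd1 := clSub fd hσ
  rcases SelAux.split (fun k => u (σ k) = p' (σ k) ∧ P (σ k) = q' (σ k))
    ((t + 2 + N) + (t + 2 + N)) ((t + 2 + N) + (t + 2 + N)) with ⟨τ, hτ, hA⟩ | ⟨τ, hτ, hA⟩
  · refine clMain hY (z := v') (clSub fd1 hτ) ?_
    intro k hk
    have h1 := hA k hk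
    have h2 := (hpq _ (hσ.2 _ (hτ.2 k hk))).2.2
    refine ⟨?_, ?_⟩
    · show ¬ D.Adj v' (u (σ (τ k)))
      rw [h1.1]
      exact h2.1
    · show D.Adj v' (P (σ (τ k)))
      rw [h1.2]
      exact h2.2.1
  · refine clMain hY (z := w') (clSub fd1 hτ) ?_
    intro k hk
    have h1 := (hσ2 _ (hτ.2 k hk)).resolve_left (hA k hk)
    have h2 := (hpq _ (hσ.2 _ (hτ.2 k hk))).2.2
    refine ⟨?_, ?_⟩
    · show ¬ D.Adj w' (u (σ (τ k)))
      rw [h1.1]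
      exact h2.2.2.2
    · show D.Adj w' (P (σ (τ k)))
      rw [h1.2]
      exact h2.2.2.1

end Pool.Agent.MPd439b2.ON2
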