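import Pool.Agent.Lib.MP_d439b2_co.ON2.Spec

/-!
# MP_d439b2_co, ON2/Cu: the cut lemma
-/

set_option autoImplicit false

namespace Pool.Agent.MPd439b2.ON2

open Pool.Agent.MPd439b2
open Pool.Agent.MPd439b2.Rep
open Pool.Agent.MPd439b2.W
open Pool.Agent.MPd439b2.A0
open Pool.Agent.MPd439b2.ON

namespace CuAux

/-- there are at most `s` classes -/
theorem card_classes {t n s : ℕ} {V : Type} [Finite V] {D : SimpleGraph V} (hE : En D t n s) :
    ({U | Gc D t n U} : Set (Set V)).ncard ≤ s := by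
  classical
  by_contra hlt
  rw [not_le] at hlt
  have hc : Nat.card ({U | Gc D t n U} : Set (Set V)) =
      ({U | Gc D t n U} : Set (Set V)).ncard := rfl
  let e := (Finite.equivFin ({U | Gc D t n U} : Set (Set V))).symm
  let c : ℕ → Set V := fun i =>
    if h : i < Nat.card ({U | Gc D t n U} : Set (Set V)) then (e ⟨i, h⟩).1 else ∅
  have hci : ∀ i, ∀ h : i < s, c i = (e ⟨i, by rw [hc]; omega⟩).1 := by
    intro i h
    have h' : i < Nat.card ({U | Gc D t n U} : Set (Set V)) := by rw [hc]; omega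
    show (if h : i < Nat.card ({U | Gc D t n U} : Set (Set V)) then (e ⟨i, h⟩).1 else ∅) = _
    rw [dif_pos h']
  refine hE.few c ?_ ?_
  · intro i hi
    rw [hci i hi]
    exact (e ⟨i, _⟩).2
  · intro i hi j hj hij
    rw [hci i hi, hci j hj] at hij
    have h1 := e.injective (Subtype.ext hij)
    exact congrArg Fin.val h1

/-- one side of the cut -/
theorem side {t n s : ℕ} {V : Type} [Finite V] {D : SimpleGraph V} {π : V → V}
    (hE : En D t n s) (hP : IsPj D t n π) {A A' : Set V} (hPt : Pt (Sh D t n) A A')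
    {B : Set V} (hB : B ⊆ hat (Sh D t n) π A') :
    LK.rk D (hat (Sh D t n) π A) B ≤ LK.rk D A B + s := by
  have hAS : A ⊆ Sh D t n := by
    rw [← hPt.1]
    exact Set.subset_union_left
  have hcov : hat (Sh D t n) π A ⊆
      A ∪ {f | ∃ U ∈ ({U | Gc D t n U} : Set (Set V)), ∀ z ∈ B, (D.Adj z f ↔ z ∉ U)} := by
    intro f hf
    rcases hf with hf | ⟨hfS, hfπ⟩
    · exact Or.inl hf
    right
    obtain ⟨U, hU, hFP⟩ := hP.1 f hfS
    refine ⟨U, hU, fun z hz => ?_⟩
    have hze : z ≠ π f := by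
      intro hze
      rcases hB hz with h | ⟨h, -⟩
      · rw [hze] at h
        exact Set.disjoint_left.mp hPt.2 hfπ h
      · rw [hze] at h
        exact h (hAS hfπ)
    obtain ⟨_, _, _, hout, hin⟩ := hFP
    constructor
    · intro hzf hzU
      exact hze (hin z hzU hzf)
    · exact hout z
  refine (rk_mono D hcov (Set.Subset.refl _)).trans ((rk_union D _ _ _).trans ?_)
  apply Nat.add_le_add_left
  refine ((LK.a1 V D).2.2.2.2.2 _ B
    ((fun U : Set V => {b | b ∈ B ∧ b ∉ U}) '' ({U | Gc D t n U} : Set (Set V))) ?_).trans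
    ((Set.ncard_image_le (Set.toFinite _)).trans (card_classes hE))
  rintro f ⟨U, hU, hz⟩
  left
  refine ⟨U, hU, ?_⟩
  ext b
  constructor
  · rintro ⟨hb, hbU⟩
    exact ⟨hb, ((hz b hb).2 hbU).symm⟩
  · rintro ⟨hb, hbf⟩
    exact ⟨hb, (hz b hb).1 hbf.symm⟩

end CuAux

open CuAux in
theorem pCu : S_Cu := by
  intro t n s V _ D π hE hP A A' hPt
  have hPt' : Pt (Sh D t n) A' A := ⟨by rw [Set.union_comm]; exact hPt.1, hPt.2.symm⟩
  have h1 := side hE hP hPt (Set.Subset.refl (hat (Sh D t n) π A'))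
  have h2 : LK.rk D (hat (Sh D t n) π A') A ≤ LK.rk D A' A + s :=
    side hE hP hPt' Set.subset_union_left
  rw [rk_symm D A (hat (Sh D t n) π A')] at h1
  rw [rk_symm D A' A] at h2
  omega

end Pool.Agent.MPd439b2.ON2
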