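import Pool.Agent.Lib.MP_d439b2_co.ON2.Spec
import Pool.Agent.Lib.MP_d439b2_co.ON.Sel

/-!
# MP_d439b2_co, ON2/Eq: the pattern `i = j` is impossible (helper82)
-/

set_option autoImplicit false

namespace Pool.Agent.MPd439b2.ON2

open Pool.Agent.MPd439b2
open Pool.Agent.MPd439b2.Rep
open Pool.Agent.MPd439b2.W
open Pool.Agent.MPd439b2.A0
open Pool.Agent.MPd439b2.ON

namespace EqAux

variable {V : Type} {D : SimpleGraph V}

theorem fd_sub {U : Set V} {w : V} {m m' : ℕ} {P Q u : ℕ → V} {σ : ℕ → ℕ}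
    (h : FD D U w m P Q u) (hσ : Incr m' m σ) : FD D U w m' (P ∘ σ) (Q ∘ σ) (u ∘ σ) where
  pq := ⟨SelAux.im_sub h.pq.1 hσ, fun i hi => h.pq.2 _ (hσ.2 i hi)⟩
  up := SelAux.im_sub h.up hσ
  uU := fun k hk => h.uU _ (hσ.2 k hk)
  uq := fun k hk j hj => h.uq _ (hσ.2 k hk) _ (hσ.2 j hj)
  gc := fun k hk => h.gc _ (hσ.2 k hk)
  wd := fun k hk => h.wd _ (hσ.2 k hk)

theorem jt_left {n m : ℕ} {x y : ℕ → V} (h : IM D m x y) (hnm : n ≤ m) {k : ℕ} (hk : k < m) :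
    (Jt D n x y (x k)).card ≤ 1 ∧ (Jt D n x y (y k)).card ≤ 1 := by
  classical
  constructor
  · refine (Finset.card_le_card (t := {k}) fun i hi => ?_).trans (Finset.card_singleton k).le
    unfold Jt at hi
    rw [Finset.mem_filter, Finset.mem_range] at hi
    rw [Finset.mem_singleton]
    rcases hi.2 with h1 | h1
    · exact absurd h1 (h k hk i (by omega)).2.1
    · exact ((h k hk i (by omega)).1.1 h1).symm
  · refine (Finset.card_le_card (t := {k}) fun i hi => ?_).trans (Finset.card_singleton k).le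
    unfold Jt at hi
    rw [Finset.mem_filter, Finset.mem_range] at hi
    rw [Finset.mem_singleton]
    rcases hi.2 with h1 | h1
    · exact (h i (by omega) k hk).1.1 h1.symm
    · exact absurd h1 (h k hk i (by omega)).2.2

end EqAux

theorem pEq : S_Eq := by
  intro U1 Fr Ty Cl Gk t N n hn
  obtain ⟨h, hCl⟩ := Cl t N
  obtain ⟨b, hFr⟩ := Fr t N h
  obtain ⟨M, hTy⟩ := Ty t N (n + b)
  refine ⟨M, ?_⟩
  intro V D hHY hTw U o₁ o₂ P Q u hRD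
  obtain ⟨σ, hσ, hFD⟩ := hTy V D hHY.jf hHY.hb.hS hHY.hd U o₂ P Q u hRD.sy hRD.gc
    (fun k hk => (hRD.op k hk).2.2) hRD.uU hRD.rel
  obtain ⟨hUP, -⟩ := U1 t n hn V D hHY.jf (u ∘ σ) (P ∘ σ)
    (SelAux.im_mono hFD.up (Nat.le_add_right n b))
  obtain ⟨U', hU'⟩ : ∃ U' : Set V, U' = {v | (Jt D n (u ∘ σ) (P ∘ σ) v).card ≤ 1} := ⟨_, rfl⟩
  rw [← hU'] at hUP
  have hmem : ∀ k < n + b, (u ∘ σ) k ∈ U' ∧ (P ∘ σ) k ∈ U' := by
    intro k hk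
    rw [hU']
    exact EqAux.jt_left hFD.up (Nat.le_add_right n b) hk
  obtain ⟨τ, hτ, hτF⟩ := Gk t n b V D U' (by omega) hUP (u ∘ σ) (P ∘ σ) ⟨hFD.up, hmem⟩
    (fun k hk => ⟨hRD.uS _ (hσ.2 k hk), hRD.pS _ (hσ.2 k hk)⟩)
  obtain ⟨v, w, ρ, p, q, hv, hw, hρ, hpq⟩ := hFr V D hHY.jf hHY.hb hTw n U' hUP
    ((u ∘ σ) ∘ τ) ((P ∘ σ) ∘ τ) ⟨SelAux.im_sub hFD.up hτ, fun k hk => hmem _ (hτ.2 k hk)⟩ hτF
  refine hCl V D hHY n U U' o₂ (((P ∘ σ) ∘ τ) ∘ ρ) (((Q ∘ σ) ∘ τ) ∘ ρ) (((u ∘ σ) ∘ τ) ∘ ρ)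
    (EqAux.fd_sub (EqAux.fd_sub hFD hτ) hρ) hUP
    (fun k hk => hmem _ (hτ.2 _ (hρ.2 k hk))) v w p q hv hw (fun k hk => hpq k hk)

end Pool.Agent.MPd439b2.ON2
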