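import Pool.Agent.Lib.MP_d439b2_co.ON2.Spec

/-!
# MP_d439b2_co, ON2/F2: free vertices of another class are outside (task of helper28, by helper77)
-/

set_option autoImplicit false

namespace Pool.Agent.MPd439b2.ON2

open Pool.Agent.MPd439b2
open Pool.Agent.MPd439b2.Rep
open Pool.Agent.MPd439b2.W
open Pool.Agent.MPd439b2.A0
open Pool.Agent.MPd439b2.ON

/-- **F2.** Free vertices of another class are outside. -/
theorem pF2 : S_F2 := by
  intro hU2 hF0 t n V D hTw htn U U' hU hU' hne f hf hfU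
  obtain ⟨hUP, e₁, f₁, hinj, hFP⟩ := hU
  obtain ⟨hUP', -⟩ := hU'
  have ind : ∀ g ∈ FS D U, ∀ g' ∈ FS D U, ¬ D.Adj g g' := ((hF0 t n V D U hUP).2.2 hTw).2
  have hFS : ∀ i < n, f₁ i ∈ FS D U := fun i hi => ⟨_, hFP i hi⟩
  have dif : ∀ i < n, ∀ j < n, i ≠ j → f₁ i ≠ f₁ j := fun i hi j hj hij h => hij (hinj i hi j hj h)
  -- (1)
  have st1 : ∀ i < n, ∀ j < n, i ≠ j → f₁ i ∈ U' → f₁ j ∈ U' → False := by
    intro i hi j hj hij h1 h2
    have hsub : U' ⊆ U := by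
      intro z hz
      by_contra hzU
      have a1 := (hFP i hi).2.2.2.1 z hzU
      have a2 := (hFP j hj).2.2.2.1 z hzU
      exact ind _ (hFS i hi) _ (hFS j hj)
        (hUP'.p3 _ h1 _ hz _ h2 a1.symm a2 (dif i hi j hj hij))
    obtain ⟨x, y, hxy⟩ := hUP'.sys
    apply hne
    have hlt : ∀ i < t + 1, i < n := fun i hi => by omega
    refine hU2 t n V D U U' hUP hUP' x y
      ⟨fun i hi j hj => hxy.1 i (hlt i hi) j (hlt j hj), fun i hi => ?_⟩
      ⟨fun i hi j hj => hxy.1 i (hlt i hi) j (hlt j hj), fun i hi => hxy.2 i (hlt i hi)⟩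
    exact ⟨hsub (hxy.2 i (hlt i hi)).1, hsub (hxy.2 i (hlt i hi)).2⟩
  -- (2)
  obtain ⟨e', he'⟩ := hf
  have st2 : ∀ i < n, ∀ j < n, i ≠ j → f₁ i ∉ U' → f₁ j ∉ U' → False := by
    intro i hi j hj hij h1 h2
    have a1 := he'.2.2.2.1 _ h1
    have a2 := he'.2.2.2.1 _ h2
    exact ind _ (hFS i hi) _ (hFS j hj)
      (hUP.p3 _ (hFP i hi).2.1 _ hfU _ (hFP j hj).2.1 a1 a2.symm (dif i hi j hj hij))
  have l0 : 0 < n := by omega
  have l1 : 1 < n := by omega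
  have l2 : 2 < n := by omega
  by_cases c0 : f₁ 0 ∈ U'
  · by_cases c1 : f₁ 1 ∈ U'
    · exact st1 0 l0 1 l1 (by norm_num) c0 c1
    · by_cases c2 : f₁ 2 ∈ U'
      · exact st1 0 l0 2 l2 (by norm_num) c0 c2
      · exact st2 1 l1 2 l2 (by norm_num) c1 c2
  · by_cases c1 : f₁ 1 ∈ U'
    · by_cases c2 : f₁ 2 ∈ U'
      · exact st1 1 l1 2 l2 (by norm_num) c1 c2
      · exact st2 0 l0 2 l2 (by norm_num) c0 c2
    · exact st2 0 l0 1 l1 (by norm_num) c0 c1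

end Pool.Agent.MPd439b2.ON2
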