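import Pool.Agent.Lib.MP_d439b2_co.ON2.Spec
import Pool.Agent.Lib.MP_d439b2_co.ON.Fr
import Pool.Agent.Lib.MP_d439b2_co.ON.Sel

/-!
# MP_d439b2_co, ON2/Fr: free pairs or opposite vertices (helper46; compare ON/Fr)
-/

set_option autoImplicit false

namespace Pool.Agent.MPd439b2.ON2

open Pool.Agent.MPd439b2
open Pool.Agent.MPd439b2.Rep
open Pool.Agent.MPd439b2.W
open Pool.Agent.MPd439b2.A0
open Pool.Agent.MPd439b2.ON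

/-- **Fr.** -/
theorem pFr : S_Fr := by
  intro hR hBa hCh t N h
  obtain ⟨m₁, hm₁⟩ := hBa hR t N
  obtain ⟨M₂, hM₂⟩ := hCh hR t N h
  obtain ⟨M₃, hM₃⟩ := hCh hR t N M₂
  refine ⟨m₁ + M₃, ?_⟩
  intro V D hJ hH hT n U hU x y hxy hcon
  have : Nonempty V := ⟨x 0⟩
  classical
  rcases SelAux.split (fun k => ∃ v a a', v ∉ U ∧ Cp D U (x k) a ∧ Cp D U (x k) a' ∧ a ≠ a' ∧
    ¬ D.Adj v a ∧ ¬ D.Adj v a') m₁ M₃ with ⟨τ, hτ, hτA⟩ | ⟨τ, hτ, hτA⟩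
  · exfalso
    have h1 : ∀ k, k < m₁ → ∃ v a a', v ∉ U ∧ Cp D U (x (τ k)) a ∧ Cp D U (x (τ k)) a' ∧ a ≠ a' ∧
        ¬ D.Adj v a ∧ ¬ D.Adj v a' := fun k hk => hτA k hk
    choose! v a a' h2 using h1
    exact hm₁ V D hJ hH n U hU a a' v
      (FrAux.sys hU hxy τ hτ.2 (fun k hk l hl e => SelAux.incr_inj hτ hk hl e) a a'
        (fun k hk => (h2 k hk).2.1) (fun k hk => (h2 k hk).2.2.1)
        (fun k hk => (h2 k hk).2.2.2.1))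
      (fun k hk => ⟨(h2 k hk).1, (h2 k hk).2.2.2.2.1, (h2 k hk).2.2.2.2.2⟩)
  · have hτb := hτ.2
    have hτi : ∀ k < M₃, ∀ l < M₃, τ k = τ l → k = l := fun k hk l hl e =>
      SelAux.incr_inj hτ hk hl e
    have h1 : ∀ k, k < M₃ → ∃ v w a a', v ∉ U ∧ w ∉ U ∧ Cp D U (x (τ k)) a ∧
        Cp D U (x (τ k)) a' ∧ a ≠ a' ∧ ¬ D.Adj v a ∧ D.Adj v a' ∧ D.Adj w a ∧
        ¬ D.Adj w a' := fun k hk =>
      FrAux.cases hU hT (hxy.2 _ (hτb k hk)).1 (hxy.2 _ (hτb k hk)).2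
        (((hxy.1 _ (hτb k hk) _ (hτb k hk)).1).2 rfl) (hcon _ (hτb k hk)).1
        (hcon _ (hτb k hk)).2 (hτA k hk)
    choose! v w a a' h2 using h1
    obtain ⟨k₀, σ, hk₀, hσ, h3⟩ := hM₃ V D hJ hH n U hU a a' v
      (FrAux.sys hU hxy τ hτb hτi a a' (fun k hk => (h2 k hk).2.2.1)
        (fun k hk => (h2 k hk).2.2.2.1) (fun k hk => (h2 k hk).2.2.2.2.1))
      (fun k hk => ⟨(h2 k hk).1, (h2 k hk).2.2.2.2.2.1, (h2 k hk).2.2.2.2.2.2.1⟩)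
    obtain ⟨k₁, σ', hk₁, hσ', h4⟩ := hM₂ V D hJ hH n U hU (fun k => a' (σ k)) (fun k => a (σ k))
      (fun k => w (σ k))
      (FrAux.sys hU hxy (fun k => τ (σ k)) (fun k hk => hτb _ (hσ.2 k hk))
        (fun k hk l hl hkl => SelAux.incr_inj hσ hk hl (hτi _ (hσ.2 k hk) _ (hσ.2 l hl) hkl))
        (fun k => a' (σ k)) (fun k => a (σ k))
        (fun k hk => (h2 _ (hσ.2 k hk)).2.2.2.1) (fun k hk => (h2 _ (hσ.2 k hk)).2.2.1)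
        (fun k hk => (h2 _ (hσ.2 k hk)).2.2.2.2.1.symm))
      (fun k hk => ⟨(h2 _ (hσ.2 k hk)).2.1, (h2 _ (hσ.2 k hk)).2.2.2.2.2.2.2.2,
        (h2 _ (hσ.2 k hk)).2.2.2.2.2.2.2.1⟩)
    have hI : Incr h (m₁ + M₃) (τ ∘ (σ ∘ σ')) := SelAux.incr_comp hτ (SelAux.incr_comp hσ hσ')
    refine ⟨v k₀, w (σ k₁), τ ∘ (σ ∘ σ'), fun k => a (σ (σ' k)), fun k => a' (σ (σ' k)),
      (h2 k₀ hk₀).1, (h2 _ (hσ.2 k₁ hk₁)).2.1, hI, ?_⟩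
    intro k hk
    have h5 := h2 _ (hσ.2 _ (hσ'.2 k hk))
    exact ⟨h5.2.2.1, h5.2.2.2.1, (h3 _ (hσ'.2 k hk)).1, (h3 _ (hσ'.2 k hk)).2, (h4 k hk).2,
      (h4 k hk).1⟩

end Pool.Agent.MPd439b2.ON2
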