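import Pool.Agent.Lib.MP_d439b2_co.ON2.Spec

/-!
# MP_d439b2_co, ON2/Gk: many pairs which are not free (task of helper28, by helper77)
-/

set_option autoImplicit false

namespace Pool.Agent.MPd439b2.ON2

open Pool.Agent.MPd439b2
open Pool.Agent.MPd439b2.Rep
open Pool.Agent.MPd439b2.W
open Pool.Agent.MPd439b2.A0
open Pool.Agent.MPd439b2.ON

namespace pGkAux

/-- a finite set with at least `b` elements contains an increasing sequence of length `b` -/
theorem enum (b : ℕ) (S : Finset ℕ) (hS : b ≤ S.card) :
    ∃ σ : ℕ → ℕ, (∀ k < b, σ k ∈ S) ∧ ∀ k l, k < l → l < b → σ k < σ l := by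
  obtain ⟨T, hTS, hT⟩ := Finset.exists_subset_card_eq hS
  refine ⟨fun k => if h : k < b then T.orderEmbOfFin hT ⟨k, h⟩ else 0, ?_, ?_⟩
  · intro k hk
    simp only [hk, dif_pos]
    exact hTS (Finset.orderEmbOfFin_mem T hT _)
  · intro k l hkl hl
    have hk : k < b := hkl.trans hl
    simp only [hk, hl, dif_pos]
    exact (T.orderEmbOfFin hT).strictMono (Fin.mk_lt_mk.2 hkl)

end pGkAux

/-- **Gk.** A large matching in `Sh` has many pairs which are not free. -/
theorem pGk : S_Gk := by
  classical
  intro t n b V D U hn hUP x y hxy hS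
  set P : ℕ → Prop := fun k => FP D U (x k) (y k) ∨ FP D U (y k) (x k) with hP
  set F := (Finset.range (n + b)).filter P with hF
  set N := (Finset.range (n + b)).filter (fun k => ¬ P k) with hN
  have hIM := hxy.1
  have nxx : ∀ i < n + b, ∀ j < n + b, i ≠ j → x i ≠ x j := by
    intro i hi j hj hij hh
    have h3 := (hIM i hi i hi).1.2 rfl
    rw [hh] at h3
    exact hij ((hIM j hj i hi).1.1 h3).symm
  have nyy : ∀ i < n + b, ∀ j < n + b, i ≠ j → y i ≠ y j := by
    intro i hi j hj hij hh
    have h3 := (hIM i hi i hi).1.2 rfl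
    rw [hh] at h3
    exact hij ((hIM i hi j hj).1.1 h3)
  have nxy : ∀ i < n + b, ∀ j < n + b, x i ≠ y j := by
    intro i hi j hj hh
    have h3 := (hIM j hj j hj).1.2 rfl
    rw [← hh] at h3
    exact (hIM j hj i hi).2.1 h3
  have hFc : F.card < n := by
    by_contra hc
    push Not at hc
    obtain ⟨σ, hσ, hσi⟩ := pGkAux.enum n F hc
    have hσlt : ∀ k < n, σ k < n + b := fun k hk =>
      Finset.mem_range.1 (Finset.mem_filter.1 (hσ k hk)).1
    have hσP : ∀ k < n, P (σ k) := fun k hk => (Finset.mem_filter.1 (hσ k hk)).2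
    have hσn : ∀ k < n, ∀ l < n, k ≠ l → σ k ≠ σ l := by
      intro k hk l hl hkl
      rcases lt_or_gt_of_ne hkl with h | h
      · exact (hσi k l h hl).ne
      · exact (hσi l k h hk).ne'
    set fr : ℕ → V := fun k => if FP D U (x k) (y k) then y k else x k with hfr
    set pr : ℕ → V := fun k => if FP D U (x k) (y k) then x k else y k with hpr
    have hfp : ∀ k, P k → FP D U (pr k) (fr k) := by
      intro k hk
      by_cases h1 : FP D U (x k) (y k)
      · have e1 : fr k = y k := if_pos h1
        have e2 : pr k = x k := if_pos h1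
        rw [e1, e2]
        exact h1
      · have e1 : fr k = x k := if_neg h1
        have e2 : pr k = y k := if_neg h1
        rw [e1, e2]
        exact hk.resolve_left h1
    have hinj : ∀ i < n + b, ∀ j < n + b, i ≠ j → fr i ≠ fr j := by
      intro i hi j hj hne hij
      by_cases hi1 : FP D U (x i) (y i)
      · have e1 : fr i = y i := if_pos hi1
        by_cases hj1 : FP D U (x j) (y j)
        · have e2 : fr j = y j := if_pos hj1
          rw [e1, e2] at hij
          exact nyy i hi j hj hne hij
        · have e2 : fr j = x j := if_neg hj1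
          rw [e1, e2] at hij
          exact nxy j hj i hi hij.symm
      · have e1 : fr i = x i := if_neg hi1
        by_cases hj1 : FP D U (x j) (y j)
        · have e2 : fr j = y j := if_pos hj1
          rw [e1, e2] at hij
          exact nxy i hi j hj hij
        · have e2 : fr j = x j := if_neg hj1
          rw [e1, e2] at hij
          exact nxx i hi j hj hne hij
    have hGc : Gc D t n U := by
      refine ⟨hUP, fun k => pr (σ k), fun k => fr (σ k), ?_, fun i hi => hfp _ (hσP i hi)⟩
      intro i hi j hj hij
      by_contra hne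
      exact hinj _ (hσlt i hi) _ (hσlt j hj) (hσn i hi j hj hne) hij
    have hl : σ 0 < n + b := hσlt 0 hn
    have hmem : fr (σ 0) ∈ Sh D t n := by
      by_cases h1 : FP D U (x (σ 0)) (y (σ 0))
      · have e1 : fr (σ 0) = y (σ 0) := if_pos h1
        rw [e1]
        exact (hS _ hl).2
      · have e1 : fr (σ 0) = x (σ 0) := if_neg h1
        rw [e1]
        exact (hS _ hl).1
    exact hmem U hGc ⟨_, hfp _ (hσP 0 hn)⟩
  have hsum : F.card + N.card = n + b := by
    have := Finset.card_filter_add_card_filter_not (s := Finset.range (n + b)) P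
    rw [Finset.card_range] at this
    exact this
  obtain ⟨σ, hσ, hσi⟩ := pGkAux.enum b N (by omega)
  refine ⟨σ, ⟨hσi, fun k hk => Finset.mem_range.1 (Finset.mem_filter.1 (hσ k hk)).1⟩,
    fun k hk => ?_⟩
  have := (Finset.mem_filter.1 (hσ k hk)).2
  exact not_or.1 this

end Pool.Agent.MPd439b2.ON2
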