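import Pool.Agent.Lib.MP_d439b2_co.ON2.Spec
import Pool.Agent.Lib.MP_d439b2_co.ON.HK

/-!
# MP_d439b2_co, ON2, HB: the facts about matchings, for `K3:0,1,02`
-/

set_option autoImplicit false

namespace Pool.Agent.MPd439b2.ON2

open Pool.Agent.MPd439b2 Pool.Agent.MPd439b2.Rep Pool.Agent.MPd439b2.W Pool.Agent.MPd439b2.A0
open Pool.Agent.MPd439b2.ON Pool.Agent.MPd439b2.ON.oHKAux

theorem pHB : S_HB := by
  intro V D N hN hI hM hS
  refine ⟨⟨hS, ?_, ?_⟩, ?_, ?_⟩
  · -- FhA
    intro x y v him hv hc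
    have F := fun (i j : ℕ) (hi : i < 4) (hj : j < 4) =>
      im_fact him (lt_of_lt_of_le hi hN) (lt_of_lt_of_le hj hN)
    have C := fun (i j : ℕ) (hi : i < 4) (hj : j < 4) =>
      hc i (lt_of_lt_of_le hi hN) j (lt_of_lt_of_le hj hN)
    have K := fun (i j : ℕ) (hi : i < 4) (hj : j < 4) (h : i ≠ j) =>
      hv i (lt_of_lt_of_le hi hN) j (lt_of_lt_of_le hj hN) h
    refine hI (x 1) (y 2) (x 0) (v 1) (v 2) (v 0)
      (K 1 2 (by omega) (by omega) (by omega)) (K 1 0 (by omega) (by omega) (by omega))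
      (K 2 0 (by omega) (by omega) (by omega))
      ((C 1 2 (by omega) (by omega)).1.mpr (by omega)).symm
      (fun h => absurd ((C 1 1 (by omega) (by omega)).1.mp h.symm) (by omega))
      (fun h => absurd ((C 1 0 (by omega) (by omega)).1.mp h.symm) (by omega))
      ((C 2 1 (by omega) (by omega)).2.mpr (by omega)).symm
      ((C 2 0 (by omega) (by omega)).2.mpr (by omega)).symm
      (fun h => absurd ((C 2 2 (by omega) (by omega)).2.mp h.symm) (by omega))
      ((C 0 1 (by omega) (by omega)).1.mpr (by omega)).symm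
      ((C 0 2 (by omega) (by omega)).1.mpr (by omega)).symm
      (fun h => absurd ((C 0 0 (by omega) (by omega)).1.mp h.symm) (by omega))
      ((F 1 2 (by omega) (by omega)).1 (by omega)).2.2
      (F 1 0 (by omega) (by omega)).2.2.2.1
      (fun h => ((F 0 2 (by omega) (by omega)).1 (by omega)).2.2 h.symm)
  · -- FhB
    intro x y v him hv hc
    have F := fun (i j : ℕ) (hi : i < 4) (hj : j < 4) =>
      im_fact him (lt_of_lt_of_le hi hN) (lt_of_lt_of_le hj hN)
    have C := fun (i j : ℕ) (hi : i < 4) (hj : j < 4) =>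
      hc i (lt_of_lt_of_le hi hN) j (lt_of_lt_of_le hj hN)
    have K := fun (i j : ℕ) (hi : i < 4) (hj : j < 4) (h : i ≠ j) =>
      hv i (lt_of_lt_of_le hi hN) j (lt_of_lt_of_le hj hN) h
    have nyx : ∀ i j : ℕ, i < 4 → j < 4 → i ≠ j → ¬ D.Adj (y i) (x j) := fun i j hi hj h h' =>
      ((F j i hj hi).1 h.symm).2.2 h'.symm
    refine hM (y 0) (y 2) (x 0) (y 1) (v 1) (v 0) (v 2)
      ((F 0 2 (by omega) (by omega)).1 (by omega)).2.1 (F 0 2 (by omega) (by omega)).2.2.2.2
      (ne1 ((C 1 1 (by omega) (by omega)).2.mpr le_rfl)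
        (F 0 1 (by omega) (by omega)).2.2.2.2).symm
      (ne1 ((C 0 1 (by omega) (by omega)).1.mpr (by omega))
        (nyx 2 0 (by omega) (by omega) (by omega))).symm
      (ne1 ((C 1 2 (by omega) (by omega)).1.mpr (by omega))
        (nyx 0 1 (by omega) (by omega) (by omega))).symm
      (ne1 ((C 0 2 (by omega) (by omega)).1.mpr (by omega))
        (nyx 2 0 (by omega) (by omega) (by omega))).symm
      (F 0 0 (by omega) (by omega)).2.1.symm (F 0 2 (by omega) (by omega)).2.1.symm
      ((F 0 1 (by omega) (by omega)).1 (by omega)).2.1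
      ((F 2 1 (by omega) (by omega)).1 (by omega)).2.1
      (K 1 0 (by omega) (by omega) (by omega)) (K 1 2 (by omega) (by omega) (by omega))
      (K 0 2 (by omega) (by omega) (by omega))
      ((C 0 0 (by omega) (by omega)).2.mpr (by omega)).symm
      ((C 2 0 (by omega) (by omega)).2.mpr (by omega)).symm
      (Or.inl fun h => absurd ((C 0 1 (by omega) (by omega)).2.mp h.symm) (by omega))
      (Or.inl fun h => absurd ((C 0 2 (by omega) (by omega)).2.mp h.symm) (by omega))
      ((C 0 1 (by omega) (by omega)).1.mpr (by omega)).symm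
      ((C 0 2 (by omega) (by omega)).1.mpr (by omega)).symm
      (fun h => absurd ((C 0 0 (by omega) (by omega)).1.mp h.symm) (by omega))
      ((C 1 1 (by omega) (by omega)).2.mpr (by omega)).symm
      ((C 1 0 (by omega) (by omega)).2.mpr (by omega)).symm
      (fun h => absurd ((C 1 2 (by omega) (by omega)).2.mp h.symm) (by omega))
      (Or.inr (nyx 2 0 (by omega) (by omega) (by omega)))
      (Or.inl (F 0 1 (by omega) (by omega)).2.2.2.2)
      ((F 0 1 (by omega) (by omega)).1 (by omega)).2.2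
  · -- FhD
    intro p q u him hu hc
    have F := fun (i j : ℕ) (hi : i < 4) (hj : j < 4) =>
      im_fact him (lt_of_lt_of_le hi hN) (lt_of_lt_of_le hj hN)
    have C := fun (i j : ℕ) (hi : i < 4) (hj : j < 4) =>
      hc i (lt_of_lt_of_le hi hN) j (lt_of_lt_of_le hj hN)
    have K := fun (i j : ℕ) (hi : i < 4) (hj : j < 4) (h : i ≠ j) =>
      hu i (lt_of_lt_of_le hi hN) j (lt_of_lt_of_le hj hN) h
    refine hI (p 0) (p 2) (q 1) (u 2) (u 0) (q 2)
      (K 2 0 (by omega) (by omega) (by omega)) (C 2 2 (by omega) (by omega)).2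
      (C 0 2 (by omega) (by omega)).2 ((C 0 0 (by omega) (by omega)).1.mpr rfl).symm
      (fun h => absurd ((C 2 0 (by omega) (by omega)).1.mp h.symm) (by omega))
      ((F 0 2 (by omega) (by omega)).1 (by omega)).2.2
      ((C 2 2 (by omega) (by omega)).1.mpr rfl).symm (F 2 2 (by omega) (by omega)).2.2.1
      (fun h => absurd ((C 0 2 (by omega) (by omega)).1.mp h.symm) (by omega))
      (C 2 1 (by omega) (by omega)).2.symm (C 0 1 (by omega) (by omega)).2.symm
      (F 1 2 (by omega) (by omega)).2.2.2.2 (F 0 2 (by omega) (by omega)).2.2.2.1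
      ((F 0 1 (by omega) (by omega)).1 (by omega)).2.2
      ((F 2 1 (by omega) (by omega)).1 (by omega)).2.2
  · -- FhE
    intro p q u w z hpq hup huq hzw hi
    have F := fun (i j : ℕ) (hi : i < 4) (hj : j < 4) =>
      im_fact hpq (lt_of_lt_of_le hi hN) (lt_of_lt_of_le hj hN)
    have F' := fun (i j : ℕ) (hi : i < 4) (hj : j < 4) =>
      im_fact hup (lt_of_lt_of_le hi hN) (lt_of_lt_of_le hj hN)
    have E := fun (i : ℕ) (h : i < 4) => hi i (lt_of_lt_of_le h hN)
    have nqp : ∀ i j : ℕ, i < 4 → j < 4 → i ≠ j → ¬ D.Adj (q i) (p j) := fun i j hi hj h h' =>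
      ((F j i hj hi).1 h.symm).2.2 h'.symm
    refine hM (q 0) (p 2) (u 0) (p 3) w z (p 0)
      (F 2 0 (by omega) (by omega)).2.1.symm (nqp 0 2 (by omega) (by omega) (by omega))
      (ne1 (E 1 (by omega)).2.2.2.1 (nqp 0 1 (by omega) (by omega) (by omega))).symm
      (E 2 (by omega)).2.2.2.1.ne.symm
      (F 0 0 (by omega) (by omega)).2.1.symm ((F 2 0 (by omega) (by omega)).1 (by omega)).1
      (huq 0 (by omega) 0 (by omega)).ne.symm (F' 0 2 (by omega) (by omega)).2.1.symm
      (F 3 0 (by omega) (by omega)).2.1.symm ((F 2 3 (by omega) (by omega)).1 (by omega)).1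
      hzw.symm (E 0 (by omega)).2.2.2.1 (E 0 (by omega)).1 (E 0 (by omega)).2.1.symm
      (E 2 (by omega)).1.symm (Or.inl fun h => (E 0 (by omega)).2.2.2.2.1 h.symm)
      (Or.inr (F 2 0 (by omega) (by omega)).2.2.2.1) (E 0 (by omega)).2.2.2.2.2.symm
      (F' 0 0 (by omega) (by omega)).2.2.1 (fun h => (E 0 (by omega)).2.2.1 h.symm)
      (E 3 (by omega)).2.2.2.1.symm (E 3 (by omega)).1.symm
      (F 3 0 (by omega) (by omega)).2.2.2.1
      (Or.inr fun h => ((F' 0 2 (by omega) (by omega)).1 (by omega)).2.2 h.symm)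
      (Or.inl (nqp 0 3 (by omega) (by omega) (by omega)))
      ((F' 0 3 (by omega) (by omega)).1 (by omega)).2.2

end Pool.Agent.MPd439b2.ON2
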