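import Pool.Agent.Lib.MP_d439b2_co.ON2.Spec
import Pool.Agent.Lib.MP_d439b2_co.ON.HK
import Pool.Agent.Lib.MP_d439b2_co.H1.M0

/-!
# MP_d439b2_co, ON2, HK: models of `K3:0,1,02` with vertices
-/

set_option autoImplicit false

namespace Pool.Agent.MPd439b2.ON2

open Pool.Agent.MPd439b2 Pool.Agent.MPd439b2.Rep Pool.Agent.MPd439b2.W Pool.Agent.MPd439b2.A0
open Pool.Agent.MPd439b2.ON Pool.Agent.MPd439b2.ON.oHKAux Pool.Agent.MPd439b2.H1.M0Aux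

namespace pHKAux

variable {V : Type} {D : SimpleGraph V}

/-- the model with the sets `P, {c₁}, {c₂}` and `{y₀}, {y₁}, {z}` -/
theorem mk (hno : ¬ IMS K302 Dᶜ Set.univ) {P : Set V} {c₁ c₂ y₀ y₁ z : V} (cP : Conn Dᶜ P)
    (h1 : ∀ c ∈ P, c ≠ y₀ ∧ c ≠ z ∧ c ≠ c₁ ∧ c ≠ c₂ ∧ D.Adj c y₁)
    (p0 : ∃ c ∈ P, ¬ D.Adj c y₀) (pz : ∃ c ∈ P, ¬ D.Adj c z) (p1 : ∃ c ∈ P, ¬ D.Adj c c₁)
    (p2 : ∃ c ∈ P, ¬ D.Adj c c₂) (hyy : D.Adj y₀ y₁) (hyz : D.Adj y₀ z) (hy1z : D.Adj y₁ z)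
    (b0 : D.Adj c₁ y₀) (bz : D.Adj c₁ z) (nb1 : ¬ D.Adj c₁ y₁) (d0 : D.Adj c₂ y₀)
    (d1 : D.Adj c₂ y₁) (ndz : ¬ D.Adj c₂ z) (n12 : ¬ D.Adj c₁ c₂) : False := by
  have s : ∀ v : V, Conn Dᶜ ({v} : Set V) := fun v => Conn.singleton _ _
  obtain ⟨u0, m0, q0⟩ := p0
  obtain ⟨uz, mz, qz⟩ := pz
  obtain ⟨u1, m1, q1⟩ := p1
  obtain ⟨u2, m2, q2⟩ := p2
  have e3 : c₁ ≠ c₂ := (ne1 d1 nb1).symm
  have e6 : c₁ ≠ y₁ := fun h => q1 (by rw [h]; exact (h1 u1 m1).2.2.2.2)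
  have e7 : c₂ ≠ z := fun h => n12 (by rw [h]; exact bz)
  refine hno (model (P := P) (Q := {c₁}) (R := {c₂}) (X := {y₀}) (Y := {y₁}) (Z := {z}) cP (s _)
    (s _) (s _) (s _) (s _) (dj ?_) (dj ?_) (dj ?_) (dj ?_) (dj ?_) (dj ?_) (dj ?_) (dj ?_)
    (dj ?_) (dj ?_) (dj ?_) (dj ?_) (dj ?_) (dj ?_) (dj ?_)
    (tc u1 c₁ m1 rfl (h1 u1 m1).2.2.1 q1) (tc u2 c₂ m2 rfl (h1 u2 m2).2.2.2.1 q2)
    (tc c₁ c₂ rfl rfl e3 n12) (tc u0 y₀ m0 rfl (h1 u0 m0).1 q0) (ntc ?_) (ntc ?_) (ntc ?_)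
    (tc c₁ y₁ rfl rfl e6 nb1) (ntc ?_) (tc uz z mz rfl (h1 uz mz).2.1 qz) (ntc ?_)
    (tc c₂ z rfl rfl e7 ndz) (ntc ?_) (ntc ?_) (ntc ?_))
  · rintro c hc _ rfl; exact (h1 c hc).2.2.1
  · rintro c hc _ rfl; exact (h1 c hc).2.2.2.1
  · rintro _ rfl _ rfl; exact e3
  · rintro c hc _ rfl; exact (h1 c hc).1
  · rintro _ rfl _ rfl; exact b0.ne
  · rintro _ rfl _ rfl; exact d0.ne
  · rintro c hc _ rfl; exact (h1 c hc).2.2.2.2.ne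
  · rintro _ rfl _ rfl; exact e6
  · rintro _ rfl _ rfl; exact d1.ne
  · rintro c hc _ rfl; exact (h1 c hc).2.1
  · rintro _ rfl _ rfl; exact bz.ne
  · rintro _ rfl _ rfl; exact e7
  · rintro _ rfl _ rfl; exact hyy.ne
  · rintro _ rfl _ rfl; exact hyz.ne
  · rintro _ rfl _ rfl; exact hy1z.ne
  · rintro _ rfl _ rfl; exact b0
  · rintro _ rfl _ rfl; exact d0
  · rintro c hc _ rfl; exact (h1 c hc).2.2.2.2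
  · rintro _ rfl _ rfl; exact d1
  · rintro _ rfl _ rfl; exact bz
  · rintro _ rfl _ rfl; exact hyy
  · rintro _ rfl _ rfl; exact hyz
  · rintro _ rfl _ rfl; exact hy1z

end pHKAux

open pHKAux

theorem pHK : S_HK := by
  intro V D hno
  refine ⟨?_, ?_⟩
  · intro c₀ c₁ c₂ y₀ y₁ z hyy hyz hy1z a1 n0 nz b0 bz nb1 d0 d1 ndz n01 n02 n12
    refine mk hno (P := {c₀}) (Conn.singleton _ _) ?_ ⟨c₀, rfl, n0⟩ ⟨c₀, rfl, nz⟩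
      ⟨c₀, rfl, n01⟩ ⟨c₀, rfl, n02⟩ hyy hyz hy1z b0 bz nb1 d0 d1 ndz n12
    rintro _ rfl
    exact ⟨(ne1 hyz nz).symm, (ne1 hyz.symm n0).symm, (ne1 bz nz).symm, (ne1 d0 n0).symm, a1⟩
  · intro c c' c₁ c₂ y₀ y₁ z hcc ncc e0 e0' ez ez' e1 e1' e2 e2' hyy hyz hy1z a1 a1' n0 nz b0 bz nb1
      d0 d1 ndz n01 n02 n12
    have ex : ∀ {r : V}, (¬ D.Adj c r ∨ ¬ D.Adj c' r) → ∃ u ∈ ({c, c'} : Set V), ¬ D.Adj u r := by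
      intro r h
      rcases h with h | h
      · exact ⟨c, Or.inl rfl, h⟩
      · exact ⟨c', Or.inr rfl, h⟩
    refine mk hno (P := {c, c'}) (Conn.pair ⟨hcc, ncc⟩) ?_ (ex n0) (ex nz) (ex n01) (ex n02)
      hyy hyz hy1z b0 bz nb1 d0 d1 ndz n12
    rintro _ (rfl | rfl)
    · exact ⟨e0, ez, e1, e2, a1⟩
    · exact ⟨e0', ez', e1', e2', a1'⟩

end Pool.Agent.MPd439b2.ON2
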