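import Pool.Agent.Lib.MP_d439b2_co.ON2.Spec
import Pool.Agent.Lib.MP_d439b2_co.ON.HK
import Pool.Agent.Lib.MP_d439b2_co.ON.JCE

/-!
# MP_d439b2_co, ON2, JG: one model of `J_t`
-/

set_option autoImplicit false

namespace Pool.Agent.MPd439b2.ON2

open Pool.Agent.MPd439b2 Pool.Agent.MPd439b2.Rep Pool.Agent.MPd439b2.W Pool.Agent.MPd439b2.A0
open Pool.Agent.MPd439b2.ON Pool.Agent.MPd439b2.ON.oHKAux

theorem pJG : S_JG := by
  intro hJB t V D hno a b v w x y him hvw nvw hav haw hab hvb hwb nva hi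
  have F := fun (i j : ℕ) (hi : i < t) (hj : j < t) => im_fact him hi hj
  have lowa : ∀ i < t, a ≠ x i ∧ a ≠ y i := fun i h =>
    ⟨(ne1 (F i i h h).2.2.1 (hi i h).2.1).symm, (ne1 (F i i h h).2.2.1.symm (hi i h).1).symm⟩
  have lowb : ∀ i < t, b ≠ x i ∧ b ≠ y i := fun i h =>
    ⟨(ne1 (F i i h h).2.2.1 (hi i h).2.2.2.1).symm,
      (ne1 (F i i h h).2.2.1.symm (hi i h).2.2.1).symm⟩
  have lowv : ∀ u, D.Adj u b → ∀ i < t, u ≠ x i ∧ u ≠ y i := fun u hu i h =>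
    ⟨ne1 hu fun h' => (hi i h).2.2.1 h'.symm, ne1 hu fun h' => (hi i h).2.2.2.1 h'.symm⟩
  have s : ∀ v : V, Conn Dᶜ ({v} : Set V) := fun v => Conn.singleton _ _
  have ex : ∀ r : V, (¬ D.Adj v r ∨ ¬ D.Adj w r) → v ≠ r → w ≠ r → Tch Dᶜ {v, w} {r} := by
    intro r h h1 h2
    rcases h with h | h
    · exact tc v r (Or.inl rfl) rfl h1 h
    · exact tc w r (Or.inr rfl) rfl h2 h
  refine hno (oJCEAux.mk hJB Dᶜ {b} {a} {v, w} (fun i => {x i}) (fun i => {y i}) (s _) (s _)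
    (Conn.pair ⟨hvw, nvw⟩) (fun i _ => ⟨s _, s _⟩) (dj ?_) (dj ?_) (dj ?_)
    (fun i h => ⟨dj ?_, dj ?_⟩) (fun i h => ⟨dj ?_, dj ?_⟩) (fun i h => ⟨dj ?_, dj ?_⟩)
    (fun i h => dj ?_) (fun i h j h' hij => ⟨dj ?_, dj ?_, dj ?_⟩) (ntc ?_) (ntc ?_)
    (ex a nva hav.symm haw.symm).symm
    (fun i h => ⟨tc b (x i) rfl rfl (lowb i h).1 (hi i h).2.2.1,
      tc b (y i) rfl rfl (lowb i h).2 (hi i h).2.2.2.1⟩)
    (fun i h => ⟨tc a (x i) rfl rfl (lowa i h).1 (hi i h).1,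
      tc a (y i) rfl rfl (lowa i h).2 (hi i h).2.1⟩)
    (fun i h => ⟨ex _ (hi i h).2.2.2.2.1 (lowv v hvb i h).1 (lowv w hwb i h).1,
      ex _ (hi i h).2.2.2.2.2 (lowv v hvb i h).2 (lowv w hwb i h).2⟩)
    (fun i h => ntc ?_) (fun i h j h' hij => ⟨tc (x i) (x j) rfl rfl ((F i j h h').1 hij).1
      (F i j h h').2.2.2.1, tc (x i) (y j) rfl rfl (F i j h h').2.1 ((F i j h h').1 hij).2.2,
      tc (y i) (y j) rfl rfl ((F i j h h').1 hij).2.1 (F i j h h').2.2.2.2⟩))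
  · rintro _ rfl _ rfl; exact hab.ne.symm
  · rintro _ rfl _ (rfl | rfl)
    · exact hvb.ne.symm
    · exact hwb.ne.symm
  · rintro _ rfl _ (rfl | rfl)
    · exact hav
    · exact haw
  · rintro _ rfl _ rfl; exact (lowb i h).1
  · rintro _ rfl _ rfl; exact (lowb i h).2
  · rintro _ rfl _ rfl; exact (lowa i h).1
  · rintro _ rfl _ rfl; exact (lowa i h).2
  · rintro _ (rfl | rfl) _ rfl
    · exact (lowv _ hvb i h).1
    · exact (lowv _ hwb i h).1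
  · rintro _ (rfl | rfl) _ rfl
    · exact (lowv _ hvb i h).2
    · exact (lowv _ hwb i h).2
  · rintro _ rfl _ rfl; exact (F i i h h).2.1
  · rintro _ rfl _ rfl; exact ((F i j h h').1 hij).1
  · rintro _ rfl _ rfl; exact (F i j h h').2.1
  · rintro _ rfl _ rfl; exact ((F i j h h').1 hij).2.1
  · rintro _ rfl _ rfl; exact hab.symm
  · rintro _ rfl _ (rfl | rfl)
    · exact hvb.symm
    · exact hwb.symm
  · rintro _ rfl _ rfl; exact (F i i h h).2.2.1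

end Pool.Agent.MPd439b2.ON2
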