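import Pool.Agent.Lib.MP_d439b2_co.ON2.Spec
import Pool.Agent.Lib.MP_d439b2_co.ON.HK

/-!
# MP_d439b2_co, ON2, Le: no half graph
-/

set_option autoImplicit false

namespace Pool.Agent.MPd439b2.ON2

open Pool.Agent.MPd439b2 Pool.Agent.MPd439b2.Rep Pool.Agent.MPd439b2.W Pool.Agent.MPd439b2.A0
open Pool.Agent.MPd439b2.ON Pool.Agent.MPd439b2.ON.oHKAux

namespace pLeAux

variable {V : Type} {D : SimpleGraph V}

/-- the pattern with Boolean colours is impossible -/
theorem core {t N : ℕ} (hy : HY D t N) {U : Set V} {o₁ o₂ : V} {m : ℕ} (hm : t + 8 ≤ m)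
    {P Q u : ℕ → V} (him : IM D m P Q) (gc : ∀ k < m, GC D U (P k))
    (hU : ∀ k < m, P k ∈ U ∧ Q k ∈ U) (uU : ∀ k < m, u k ∉ U)
    (op : ∀ k < m, Op D o₁ o₂ (P k) (Q k))
    (rel : ∀ i < m, ∀ j < m, (D.Adj (u i) (P j) ↔ i ≤ j)) (η α : Bool)
    (h1 : ∀ i j, i < j → j < m → (D.Adj (u i) (u j) ↔ η = true))
    (h2 : ∀ i j, i < j → j < m → (D.Adj (u i) (Q j) ↔ α = true)) : False := by
  have F := fun (i j : ℕ) (hi : i < m) (hj : j < m) => im_fact him hi hj
  have F1 : ∀ i j : ℕ, i < m → j < m → i ≠ j → ¬ D.Adj (P i) (Q j) := fun i j hi hj h =>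
    ((F i j hi hj).1 h).2.2
  have F2 : ∀ i j : ℕ, i < m → j < m → ¬ D.Adj (P i) (P j) := fun i j hi hj =>
    (F i j hi hj).2.2.2.1
  have F3 : ∀ i j : ℕ, i < m → j < m → ¬ D.Adj (Q i) (Q j) := fun i j hi hj =>
    (F i j hi hj).2.2.2.2
  have PQ : ∀ i < m, D.Adj (P i) (Q i) := fun i hi => (F i i hi hi).2.2.1
  -- for `j < i` the vertex `u i` sees `Q j`
  have low : ∀ i j, j < i → i < m → D.Adj (u i) (Q j) := by
    intro i j hji hi
    have hj : j < m := by omega
    rcases gc j hj (u i) (uU i hi) (P j) (Q j) ⟨(hU j hj).1, Or.inl rfl⟩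
      ⟨(hU j hj).2, Or.inr (PQ j hj).symm⟩ (PQ j hj).ne with h | h
    · exact absurd ((rel i hi j hj).mp h) (by omega)
    · exact h
  have miss : ∀ i j, j < i → i < m → ¬ D.Adj (u i) (P j) := fun i j hji hi h =>
    absurd ((rel i hi j (by omega)).mp h) (by omega)
  have see : ∀ i j, i ≤ j → j < m → D.Adj (u i) (P j) := fun i j hij hj =>
    (rel i (by omega) j hj).mpr hij
  have une : ∀ i j, i < j → j < m → u i ≠ u j := fun i j hij hj =>
    ne1 (see i i le_rfl (by omega)) (miss j i hij hj)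
  cases α
  · have nQ : ∀ i j, i < j → j < m → ¬ D.Adj (u i) (Q j) := fun i j hij hj h =>
      absurd ((h2 i j hij hj).mp h) (by decide)
    cases η
    · have nu : ∀ i j, i < j → j < m → ¬ D.Adj (u i) (u j) := fun i j hij hj h =>
        absurd ((h1 i j hij hj).mp h) (by decide)
      refine hy.jg (P 0) (Q 0) (u 1) (u (t + 2)) (fun i => P (i + 2)) (fun i => Q (i + 2)) ?_
        (une 1 (t + 2) (by omega) (by omega)) (nu 1 (t + 2) (by omega) (by omega))
        (fun h => uU 1 (by omega) (by rw [← h]; exact (hU 0 (by omega)).1))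
        (fun h => uU (t + 2) (by omega) (by rw [← h]; exact (hU 0 (by omega)).1))
        (PQ 0 (by omega)) (low 1 0 (by omega) (by omega)) (low (t + 2) 0 (by omega) (by omega))
        (Or.inl (miss 1 0 (by omega) (by omega))) ?_
      · intro i hi j hj
        have h := him (i + 2) (by omega) (j + 2) (by omega)
        refine ⟨?_, h.2⟩
        rw [h.1]
        omega
      · intro i hi
        exact ⟨F2 0 (i + 2) (by omega) (by omega), F1 0 (i + 2) (by omega) (by omega) (by omega),
          fun h => F1 (i + 2) 0 (by omega) (by omega) (by omega) h.symm,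
          F3 0 (i + 2) (by omega) (by omega), Or.inr (miss (t + 2) (i + 2) (by omega) (by omega)),
          Or.inl (nQ 1 (i + 2) (by omega) (by omega))⟩
    · have yu : ∀ i j, i < j → j < m → D.Adj (u i) (u j) := fun i j hij hj =>
        (h1 i j hij hj).mpr rfl
      exact hy.hi (P 1) (Q 2) (P 4) (u 3) (u 0) (u 5) (yu 0 3 (by omega) (by omega)).symm
        (yu 3 5 (by omega) (by omega)) (yu 0 5 (by omega) (by omega))
        (see 0 1 (by omega) (by omega)).symm (fun h => miss 3 1 (by omega) (by omega) h.symm)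
        (fun h => miss 5 1 (by omega) (by omega) h.symm) (low 3 2 (by omega) (by omega)).symm
        (low 5 2 (by omega) (by omega)).symm (fun h => nQ 0 2 (by omega) (by omega) h.symm)
        (see 3 4 (by omega) (by omega)).symm (see 0 4 (by omega) (by omega)).symm
        (fun h => miss 5 4 (by omega) (by omega) h.symm)
        (F1 1 2 (by omega) (by omega) (by omega)) (F2 1 4 (by omega) (by omega))
        (fun h => F1 4 2 (by omega) (by omega) (by omega) h.symm)
  · have yQ : ∀ i j, i < j → j < m → D.Adj (u i) (Q j) := fun i j hij hj =>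
      (h2 i j hij hj).mpr rfl
    have oP : ∀ i < m, D.Adj o₂ (P i) := fun i hi => (op i hi).2.2.1
    have oQ : ∀ i < m, ¬ D.Adj o₂ (Q i) := fun i hi => (op i hi).2.2.2
    have hne : u (t + 1) ≠ o₂ :=
      ne1 (yQ (t + 1) (t + 2) (by omega) (by omega)) (oQ (t + 2) (by omega))
    by_cases hc : D.Adj (u (t + 1)) o₂
    · exact hy.hi (P 0) (Q (t + 2)) (P (t + 3)) (u (t + 1)) o₂ (P (t + 2)) hc
        (see (t + 1) (t + 2) (by omega) (by omega)) (oP (t + 2) (by omega))
        (oP 0 (by omega)).symm (fun h => miss (t + 1) 0 (by omega) (by omega) h.symm)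
        (F2 0 (t + 2) (by omega) (by omega)) (yQ (t + 1) (t + 2) (by omega) (by omega)).symm
        (PQ (t + 2) (by omega)).symm (fun h => oQ (t + 2) (by omega) h.symm)
        (see (t + 1) (t + 3) (by omega) (by omega)).symm (oP (t + 3) (by omega)).symm
        (F2 (t + 3) (t + 2) (by omega) (by omega)) (F1 0 (t + 2) (by omega) (by omega) (by omega))
        (F2 0 (t + 3) (by omega) (by omega))
        (fun h => F1 (t + 3) (t + 2) (by omega) (by omega) (by omega) h.symm)
    · refine hy.jf.jB (P (t + 2)) (u (t + 1)) o₂ (P (t + 3)) P Q ?_ hne hc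
        (see (t + 1) (t + 2) (by omega) (by omega)) (see (t + 1) (t + 3) (by omega) (by omega))
        (oP (t + 2) (by omega)) (oP (t + 3) (by omega))
        ((F (t + 2) (t + 3) (by omega) (by omega)).1 (by omega)).1
        (F2 (t + 2) (t + 3) (by omega) (by omega)) ?_
      · exact fun i hi j hj => him i (by omega) j (by omega)
      · intro i hi
        exact ⟨F2 _ _ (by omega) (by omega), F1 _ _ (by omega) (by omega) (by omega),
          F2 _ _ (by omega) (by omega), F1 _ _ (by omega) (by omega) (by omega),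
          Or.inl (miss (t + 1) i (by omega) (by omega)), Or.inr (oQ i (by omega))⟩

end pLeAux

open pLeAux

theorem pLe : S_Le := by
  classical
  intro ram t N
  obtain ⟨M, hM⟩ := ram (Bool × Bool) (t + 8)
  refine ⟨M, fun V D hy U S o₁ o₂ P Q u hr => ?_⟩
  obtain ⟨s, c, hs1, hs2, hs3⟩ := hM (fun i j => (decide (D.Adj (u i) (u j)),
    decide (D.Adj (u i) (Q j))))
  obtain ⟨η, α⟩ := c
  simp only [Prod.mk.injEq] at hs3
  have inj : ∀ i < t + 8, ∀ j < t + 8, s i = s j → i = j := by
    intro i hi j hj h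
    rcases lt_trichotomy i j with h' | h' | h'
    · exact absurd h (hs1 i j h' hj).ne
    · exact h'
    · exact absurd h (hs1 j i h' hi).ne'
  refine core hy (m := t + 8) le_rfl (P := P ∘ s) (Q := Q ∘ s) (u := u ∘ s) (U := U) (o₁ := o₁)
    (o₂ := o₂) ?_ (fun k hk => hr.gc _ (hs2 k hk)) (fun k hk => hr.sy.2 _ (hs2 k hk))
    (fun k hk => hr.uU _ (hs2 k hk)) (fun k hk => hr.op _ (hs2 k hk)) ?_ η α ?_ ?_
  · intro i hi j hj
    have h1 := hr.sy.1 (s i) (hs2 i hi) (s j) (hs2 j hj)
    refine ⟨?_, h1.2⟩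
    show D.Adj (P (s i)) (Q (s j)) ↔ i = j
    rw [h1.1]
    exact ⟨inj i hi j hj, fun e => by rw [e]⟩
  · intro i hi j hj
    show D.Adj (u (s i)) (P (s j)) ↔ i ≤ j
    rw [hr.rel (s i) (hs2 i hi) (s j) (hs2 j hj)]
    constructor
    · intro h
      by_contra hc
      have := hs1 j i (by omega) hi
      omega
    · intro h
      rcases Nat.eq_or_lt_of_le h with e | e
      · rw [e]
      · exact (hs1 i j e hj).le
  · intro i j hij hj
    show D.Adj (u (s i)) (u (s j)) ↔ η = true
    rw [← (hs3 i j hij hj).1, decide_eq_true_iff]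
  · intro i j hij hj
    show D.Adj (u (s i)) (Q (s j)) ↔ α = true
    rw [← (hs3 i j hij hj).2, decide_eq_true_iff]

end Pool.Agent.MPd439b2.ON2
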