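import Pool.Agent.Lib.MP_d439b2_co.ON2.Spec

/-!
# MP_d439b2_co, ON2/NM: there is no large matching in `Sh`
-/

set_option autoImplicit false

namespace Pool.Agent.MPd439b2.ON2

open Pool.Agent.MPd439b2
open Pool.Agent.MPd439b2.Rep
open Pool.Agent.MPd439b2.W
open Pool.Agent.MPd439b2.A0
open Pool.Agent.MPd439b2.ON

namespace NMAux

variable {V : Type} {D : SimpleGraph V}

theorem incr_inj {m M : ℕ} {σ : ℕ → ℕ} (h : Incr m M σ) {i j : ℕ} (hi : i < m) (hj : j < m) :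
    σ i = σ j ↔ i = j := by
  constructor
  · intro he
    rcases lt_trichotomy i j with h1 | h1 | h1
    · have := h.1 i j h1 hj
      omega
    · exact h1
    · have := h.1 j i h1 hi
      omega
  · intro he
    rw [he]

theorem sy_comp {U : Set V} {m M : ℕ} {x y : ℕ → V} (h : Sy D U M x y) {σ : ℕ → ℕ}
    (hσ : Incr m M σ) : Sy D U m (x ∘ σ) (y ∘ σ) := by
  refine ⟨fun i hi j hj => ?_, fun i hi => h.2 _ (hσ.2 i hi)⟩
  obtain ⟨h1, h2, h3⟩ := h.1 _ (hσ.2 i hi) _ (hσ.2 j hj)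
  exact ⟨h1.trans (incr_inj hσ hi hj), h2, h3⟩

theorem im_mono {m M : ℕ} (hm : m ≤ M) {x y : ℕ → V} (h : IM D M x y) : IM D m x y :=
  fun i hi j hj => h i (hi.trans_le hm) j (hj.trans_le hm)

theorem rd_mono {U S : Set V} {o₁ o₂ : V} {m M : ℕ} (hm : m ≤ M) {P Q u : ℕ → V}
    {R : ℕ → ℕ → Prop} (h : RD D U S o₁ o₂ M P Q u R) : RD D U S o₁ o₂ m P Q u R where
  sy := ⟨im_mono hm h.sy.1, fun i hi => h.sy.2 i (hi.trans_le hm)⟩
  gc := fun k hk => h.gc k (hk.trans_le hm)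
  uU := fun k hk => h.uU k (hk.trans_le hm)
  uS := fun k hk => h.uS k (hk.trans_le hm)
  pS := fun k hk => h.pS k (hk.trans_le hm)
  op := fun k hk => h.op k (hk.trans_le hm)
  o1 := h.o1
  o2 := h.o2
  rel := fun i hi j hj => h.rel i (hi.trans_le hm) j (hj.trans_le hm)

theorem mem_jt {n : ℕ} {x y : ℕ → V} {v : V} {j : ℕ} (h : j ∈ Jt D n x y v) :
    j < n ∧ (D.Adj v (x j) ∨ D.Adj v (y j)) := by
  classical
  unfold Jt at h
  have h1 := Finset.mem_filter.1 h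
  exact ⟨Finset.mem_range.1 h1.1, h1.2⟩

theorem oe_od {t n : ℕ} {U : Set V} {v w : V} {m : ℕ} {p q : ℕ → V} (h : OE D t n U v w m p q) :
    OD D t n U v w m p p q where
  up := h.up
  vU := h.vU
  wU := h.wU
  xI := fun i hi j hj => (h.sy.1 i hi j hj).2.1
  xJ := by
    intro i hi j hj he
    have h1 := (h.sy.1 i hi i hi).1.2 rfl
    rw [he] at h1
    exact ((h.sy.1 j hj i hi).1.1 h1).symm
  xU := fun k hk => (h.sy.2 k hk).1
  gc := h.gc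
  cp := by
    intro k hk
    have h1 := (h.sy.1 k hk k hk).1.2 rfl
    exact ⟨⟨(h.sy.2 k hk).1, Or.inl rfl⟩, ⟨(h.sy.2 k hk).2, Or.inr h1.symm⟩, h1.ne⟩
  vw := h.vw

end NMAux

open NMAux in
theorem pNM : S_NM := by
  intro hU1 hFr hOE hNe hLe hEq hPa hSo hGk t N n hn
  obtain ⟨MNe, hNe⟩ := hNe t N
  obtain ⟨MLe, hLe⟩ := hLe t N
  obtain ⟨MEq, hEq⟩ := hEq t N n hn
  obtain ⟨M₄, h41, h42, h43⟩ : ∃ M₄, MNe ≤ M₄ ∧ MLe ≤ M₄ ∧ MEq ≤ M₄ :=
    ⟨MNe + MLe + MEq, by omega, by omega, by omega⟩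
  obtain ⟨M₅, hM₅⟩ := hSo M₄
  obtain ⟨c₁, hc₁⟩ := hPa M₅
  refine ⟨c₁, fun β => ?_⟩
  obtain ⟨M₇, hM₇⟩ := hOE t N (2 * β c₁ + 2)
  obtain ⟨b, hb⟩ := hFr t N M₇
  refine ⟨n + b, fun c₀ hc V _ D hY hTw hL x y hIM hxy => ?_⟩
  obtain ⟨hUP, hUx⟩ := hU1 t n hn V D hY.jf x y (im_mono (Nat.le_add_right n b) hIM)
  obtain ⟨U, hU⟩ : ∃ U, U = {v | (Jt D n x y v).card ≤ 1} := ⟨_, rfl⟩
  rw [← hU] at hUP
  have hSy : Sy D U (n + b) x y := by
    refine ⟨hIM, fun i hi => ?_⟩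
    rw [hU]
    by_cases hin : i < n
    · exact hUx i hin
    · have e1 : Jt D n x y (x i) = ∅ := by
        rw [Finset.eq_empty_iff_forall_notMem]
        intro j hj
        obtain ⟨hj1, hj2 | hj2⟩ := mem_jt hj
        · exact (hIM i hi j (by omega)).2.1 hj2
        · have := (hIM i hi j (by omega)).1.1 hj2
          omega
      have e2 : Jt D n x y (y i) = ∅ := by
        rw [Finset.eq_empty_iff_forall_notMem]
        intro j hj
        obtain ⟨hj1, hj2 | hj2⟩ := mem_jt hj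
        · have := (hIM j (by omega) i hi).1.1 hj2.symm
          omega
        · exact (hIM i hi j (by omega)).2.2 hj2
      constructor
      · show (Jt D n x y (x i)).card ≤ 1
        rw [e1]
        simp
      · show (Jt D n x y (y i)).card ≤ 1
        rw [e2]
        simp
  obtain ⟨σ, hσ, hfree⟩ := hGk t n b V D U (by omega) hUP x y hSy hxy
  have hSy1 := sy_comp hSy hσ
  obtain ⟨v, w, σ', p, q, hv, hw, hσ', hpq⟩ := hb V D hY.jf hY.hb hTw n U hUP (x ∘ σ) (y ∘ σ) hSy1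
    hfree
  have hSy2 := sy_comp hSy1 hσ'
  obtain ⟨τ, hτ, hOEd, hset⟩ := hM₇ V D hY n U hUP v w ((x ∘ σ) ∘ σ') ((y ∘ σ) ∘ σ') p q hv hw hSy2
    hpq
  have hpS : ∀ k < 2 * β c₁ + 2, (p ∘ τ) k ∈ Sh D t n := by
    intro k hk
    have h1 := hxy _ (hσ.2 _ (hσ'.2 _ (hτ.2 k hk)))
    rcases hset k hk with ⟨h2, -⟩ | ⟨-, h2⟩
    · show p (τ k) ∈ Sh D t n
      rw [← h2]
      exact h1.1
    · show p (τ k) ∈ Sh D t n
      rw [← h2]
      exact h1.2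
  obtain ⟨u, z, κ, hP⟩ := hc₁ β c₀ hc V D (Sh D t n) hL t n U v w (2 * β c₁ + 2) (p ∘ τ) (p ∘ τ)
    (q ∘ τ) le_rfl (oe_od hOEd) hpS
  rcases hP with hP | hP | hP
  · obtain ⟨o₁, o₂, P, Q, u', hRD⟩ := hM₅ t n V D U (Sh D t n) v w _ _ _ u z κ _ (Or.inl rfl) hOEd hP
    exact hEq V D hY hTw U o₁ o₂ P Q u' (rd_mono h43 hRD)
  · obtain ⟨o₁, o₂, P, Q, u', hRD⟩ := hM₅ t n V D U (Sh D t n) v w _ _ _ u z κ _
      (Or.inr (Or.inl rfl)) hOEd hP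
    exact hNe V D hY U (Sh D t n) o₁ o₂ P Q u' (rd_mono h41 hRD)
  · obtain ⟨o₁, o₂, P, Q, u', hRD⟩ := hM₅ t n V D U (Sh D t n) v w _ _ _ u z κ _
      (Or.inr (Or.inr rfl)) hOEd hP
    exact hLe V D hY U (Sh D t n) o₁ o₂ P Q u' (rd_mono h42 hRD)

end Pool.Agent.MPd439b2.ON2
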