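import Pool.Agent.Lib.MP_d439b2_co.ON2.Spec

/-!
# MP_d439b2_co, ON2/Ne: no co-matching (task of helper28, by helper77)
-/

set_option autoImplicit false

namespace Pool.Agent.MPd439b2.ON2

open Pool.Agent.MPd439b2
open Pool.Agent.MPd439b2.Rep
open Pool.Agent.MPd439b2.W
open Pool.Agent.MPd439b2.A0
open Pool.Agent.MPd439b2.ON

/-- **Ne.** No co-matching. -/
theorem pNe : S_Ne := by
  classical
  intro hR t N
  set m₀ := max ((t + 3) ^ 2) N + 2 with hm₀
  obtain ⟨M, hM⟩ := hR Bool m₀
  refine ⟨M, fun V D hY U S o₁ o₂ P Q u h => ?_⟩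
  obtain ⟨s, c, hs1, hs2, hs3⟩ := hM fun i j => decide (D.Adj (u i) (u j))
  have hinj : ∀ k < m₀, ∀ l < m₀, (s k = s l ↔ k = l) := by
    intro k hk l hl
    constructor
    · intro hh
      rcases lt_trichotomy k l with h3 | h3 | h3
      · exact absurd hh (hs1 k l h3 hl).ne
      · exact h3
      · exact absurd hh (hs1 l k h3 hk).ne'
    · intro hh
      rw [hh]
  have cam : ∀ n ≤ m₀, Cam D n (fun i => P (s i)) fun i => u (s i) := by
    intro n hn i hi j hj
    have hi' : i < m₀ := by omega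
    have hj' : j < m₀ := by omega
    rw [SimpleGraph.adj_comm, h.rel _ (hs2 j hj') _ (hs2 i hi')]
    rw [ne_eq, hinj j hj' i hi']
    exact ⟨fun hh => fun e => hh e.symm, fun hh => fun e => hh e.symm⟩
  have ind : ∀ n ≤ m₀, Ind D n fun i => P (s i) := by
    intro n hn i hi j hj
    exact (h.sy.1 _ (hs2 i (by omega)) _ (hs2 j (by omega))).2.1
  have l1 : (t + 3) ^ 2 ≤ m₀ := by
    have := le_max_left ((t + 3) ^ 2) N
    omega
  have l2 : N ≤ m₀ := by
    have := le_max_right ((t + 3) ^ 2) N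
    omega
  cases c with
  | false =>
    have hn : ∀ i j, i < j → j < m₀ → ¬ D.Adj (u (s i)) (u (s j)) := fun i j hij hj =>
      of_decide_eq_false (hs3 i j hij hj)
    refine hY.jf.jF _ _ (ind _ l1) (fun i hi j hj => ?_) (cam _ l1)
    rcases lt_trichotomy i j with h3 | h3 | h3
    · exact hn i j h3 (by omega)
    · rw [h3]
      exact SimpleGraph.irrefl D
    · exact fun hh => hn j i h3 (by omega) hh.symm
  | true =>
    have hn : ∀ i j, i < j → j < m₀ → D.Adj (u (s i)) (u (s j)) := fun i j hij hj =>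
      of_decide_eq_true (hs3 i j hij hj)
    refine hY.hb.hS _ _ (ind _ l2) (fun i hi j hj hij => ?_) (cam _ l2)
    rcases lt_or_gt_of_ne hij with h3 | h3
    · exact hn i j h3 (by omega)
    · exact (hn j i h3 (by omega)).symm

end Pool.Agent.MPd439b2.ON2
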