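import Pool.Agent.Lib.MP_d439b2_co.ON2.Spec
import Pool.Agent.Lib.MP_d439b2_co.ON.Fr
import Pool.Agent.Lib.MP_d439b2_co.ON.Sel

/-!
# MP_d439b2_co, ON2/OE: opposite pairs live on components with two elements (helper46)
-/

set_option autoImplicit false

namespace Pool.Agent.MPd439b2.ON2

open Pool.Agent.MPd439b2
open Pool.Agent.MPd439b2.Rep
open Pool.Agent.MPd439b2.W
open Pool.Agent.MPd439b2.A0
open Pool.Agent.MPd439b2.ON

/-- **OE.** -/
theorem pOE : S_OE := by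
  classical
  intro hRam hBa t N m
  obtain ⟨m₁, hm₁⟩ := hBa hRam t N
  refine ⟨m + m₁ + t + 3, ?_⟩
  intro V D hY n U hU v w x y p q hv hw hS hpq
  have hxU : ∀ i < m + m₁ + t + 3, x i ∈ U := fun i hi => (hS.2 i hi).1
  have hyC : ∀ i < m + m₁ + t + 3, Cp D U (x i) (y i) := fun i hi =>
    ⟨(hS.2 i hi).2, Or.inr (((hS.1 i hi i hi).1).2 rfl).symm⟩
  have hxC : ∀ i < m + m₁ + t + 3, Cp D U (x i) (x i) := fun i hi => ⟨hxU i hi, Or.inl rfl⟩
  have hpqne : ∀ i < m + m₁ + t + 3, p i ≠ q i := by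
    intro i hi h
    obtain ⟨_, _, h1, h2, _, _⟩ := hpq i hi
    rw [h] at h1
    exact h1 h2
  have hvw : v ≠ w := by
    intro h
    obtain ⟨_, _, h1, _, h2, _⟩ := hpq 0 (by omega)
    rw [h] at h1
    exact h1 h2
  -- the bad indices
  obtain ⟨B1, hB1⟩ : ∃ B : Finset ℕ, B = (Finset.range (m + m₁ + t + 3)).filter
    (fun k => ¬ GC D U (x k)) := ⟨_, rfl⟩
  obtain ⟨B2, hB2⟩ : ∃ B : Finset ℕ, B = (Finset.range (m + m₁ + t + 3)).filter
    (fun k => GC D U (x k) ∧ ∃ c, Cp D U (x k) c ∧ c ≠ p k ∧ c ≠ q k) := ⟨_, rfl⟩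
  have c1 : B1.card < m₁ := by
    by_contra h1
    rw [hB1] at h1
    obtain ⟨s, hs, hsB⟩ := SelAux.enum (fun k => ¬ GC D U (x k)) m₁ (m + m₁ + t + 3) (not_lt.1 h1)
    have h4 : ∀ k, ∃ (u a b : V), k < m₁ → u ∉ U ∧ Cp D U (x (s k)) a ∧ Cp D U (x (s k)) b ∧
        a ≠ b ∧ ¬ D.Adj u a ∧ ¬ D.Adj u b := by
      intro k
      by_cases hk : k < m₁
      · have h5 := hsB k hk
        unfold ON.GC at h5
        push Not at h5
        obtain ⟨u, h6, a, b, h7, h8, h9, h10, h11⟩ := h5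
        exact ⟨u, a, b, fun _ => ⟨h6, h7, h8, h9, h10, h11⟩⟩
      · exact ⟨v, v, v, fun h => absurd h hk⟩
    choose u a b h5 using h4
    exact hm₁ V D hY.jf hY.hb n U hU a b u
      (FrAux.sys hU hS s hs.2 (fun k hk l hl e => SelAux.incr_inj hs hk hl e) a b
        (fun k hk => (h5 k hk).2.1) (fun k hk => (h5 k hk).2.2.1) (fun k hk => (h5 k hk).2.2.2.1))
      (fun i hi => ⟨(h5 i hi).1, (h5 i hi).2.2.2.2.1, (h5 i hi).2.2.2.2.2⟩)
  have c2 : B2.card < 3 := by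
    by_contra h1
    rw [hB2] at h1
    obtain ⟨s, hs, hsB⟩ := SelAux.enum
      (fun k => GC D U (x k) ∧ ∃ c, Cp D U (x k) c ∧ c ≠ p k ∧ c ≠ q k) 3 (m + m₁ + t + 3)
      (not_lt.1 h1)
    have h4 : ∀ k, ∃ c : V, k < 3 → GC D U (x (s k)) ∧ Cp D U (x (s k)) c ∧ c ≠ p (s k) ∧
        c ≠ q (s k) := by
      intro k
      by_cases hk : k < 3
      · obtain ⟨h5, c, h6⟩ := hsB k hk
        exact ⟨c, fun _ => ⟨h5, h6⟩⟩
      · exact ⟨v, fun h => absurd h hk⟩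
    choose c hc using h4
    have hsl := hs.2
    have hvc : ∀ k < 3, D.Adj v (c k) := by
      intro k hk
      obtain ⟨h5, h6, h7, h8⟩ := hc k hk
      obtain ⟨h9, _, h10, _, _, _⟩ := hpq _ (hsl k hk)
      exact (h5 v hv _ _ h9 h6 h7.symm).resolve_left h10
    have hwc : ∀ k < 3, D.Adj w (c k) := by
      intro k hk
      obtain ⟨h5, h6, h7, h8⟩ := hc k hk
      obtain ⟨_, h9, _, _, _, h10⟩ := hpq _ (hsl k hk)
      exact (h5 w hw _ _ h9 h6 h8.symm).resolve_left h10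
    have hsep : ∀ i < 3, ∀ j < 3, i ≠ j → ∀ a b, Cp D U (x (s i)) a → Cp D U (x (s j)) b →
        ¬ D.Adj a b := by
      intro i hi j hj hij a b ha hb
      exact (FrAux.cmpne hU hS (hsl i hi) (hsl j hj)
        (fun e => hij (SelAux.incr_inj hs hi hj e)) ha hb).2
    obtain ⟨p0, q0, vp0, vq0, wp0, wq0⟩ := hpq _ (hsl 0 (by omega))
    obtain ⟨p1, q1, vp1, vq1, wp1, wq1⟩ := hpq _ (hsl 1 (by omega))
    obtain ⟨g0, k0, n0, l0⟩ := hc 0 (by omega)
    obtain ⟨g1, k1, n1, l1⟩ := hc 1 (by omega)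
    obtain ⟨g2, k2, n2, l2⟩ := hc 2 (by omega)
    have hpc : D.Adj (p (s 0)) (c 0) := FrAux.cmp hU (hxU _ (hsl 0 (by omega))) p0 k0 n0.symm
    by_cases hadj : D.Adj v w
    · exact hY.hi (q (s 1)) (p (s 0)) (c 2) w v (c 0) hadj.symm (hwc 0 (by omega))
        (hvc 0 (by omega)) vq1.symm (fun h => wq1 h.symm)
        (hsep 1 (by omega) 0 (by omega) (by omega) _ _ q1 k0) wp0.symm hpc
        (fun h => vp0 h.symm) (hwc 2 (by omega)).symm (hvc 2 (by omega)).symm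
        (hsep 2 (by omega) 0 (by omega) (by omega) _ _ k2 k0)
        (hsep 1 (by omega) 0 (by omega) (by omega) _ _ q1 p0)
        (hsep 1 (by omega) 2 (by omega) (by omega) _ _ q1 k2)
        (hsep 0 (by omega) 2 (by omega) (by omega) _ _ p0 k2)
    · obtain ⟨τ, hτ⟩ : ∃ τ : ℕ → ℕ, τ = fun i => if i < s 0 then i else i + 1 := ⟨_, rfl⟩
      have hτ1 : ∀ i < t, τ i < m + m₁ + t + 3 ∧ τ i ≠ s 0 := by
        intro i hi
        rw [hτ]
        show (if i < s 0 then i else i + 1) < _ ∧ (if i < s 0 then i else i + 1) ≠ s 0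
        split_ifs with h5
        · omega
        · omega
      have hτ2 : ∀ i < t, ∀ j < t, τ i = τ j → i = j := by
        intro i _ j _ h5
        rw [hτ] at h5
        have h6 : (if i < s 0 then i else i + 1) = (if j < s 0 then j else j + 1) := h5
        split_ifs at h6 <;> omega
      have hsys := FrAux.sys hU hS τ (fun k hk => (hτ1 k hk).1) hτ2 (fun i => p (τ i))
        (fun i => q (τ i)) (fun k hk => (hpq _ (hτ1 k hk).1).1)
        (fun k hk => (hpq _ (hτ1 k hk).1).2.1) (fun k hk => hpqne _ (hτ1 k hk).1)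
      refine hY.jg (p (s 0)) (c 0) v w (fun i => p (τ i)) (fun i => q (τ i)) hsys.1 hvw hadj
        (fun e => hv (e ▸ p0.1)) (fun e => hw (e ▸ p0.1)) hpc (hvc 0 (by omega))
        (hwc 0 (by omega)) (Or.inl vp0) ?_
      intro i hi
      obtain ⟨h5, h6⟩ := hτ1 i hi
      obtain ⟨pi, qi, vpi, vqi, wpi, wqi⟩ := hpq _ h5
      have h7 := fun (a b : V) (ha : Cp D U (x (s 0)) a) (hb : Cp D U (x (τ i)) b) =>
        (FrAux.cmpne hU hS (hsl 0 (by omega)) h5 h6.symm ha hb).2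
      exact ⟨h7 _ _ p0 pi, h7 _ _ p0 qi, h7 _ _ k0 pi, h7 _ _ k0 qi, Or.inl vpi, Or.inr wqi⟩
  -- the remaining indices
  have c4 : m ≤ ((Finset.range (m + m₁ + t + 3)).filter
      (fun k => GC D U (x k) ∧ ¬ ∃ c, Cp D U (x k) c ∧ c ≠ p k ∧ c ≠ q k)).card := by
    have h1 : (Finset.range (m + m₁ + t + 3)) ⊆ B1 ∪ B2 ∪ (Finset.range (m + m₁ + t + 3)).filter
      (fun k => GC D U (x k) ∧ ¬ ∃ c, Cp D U (x k) c ∧ c ≠ p k ∧ c ≠ q k) := by
      intro k hk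
      rw [Finset.mem_union, Finset.mem_union, hB1, hB2, Finset.mem_filter, Finset.mem_filter,
        Finset.mem_filter]
      by_cases h2 : GC D U (x k)
      · by_cases h3 : ∃ c, Cp D U (x k) c ∧ c ≠ p k ∧ c ≠ q k
        · exact Or.inl (Or.inr ⟨hk, h2, h3⟩)
        · exact Or.inr ⟨hk, h2, h3⟩
      · exact Or.inl (Or.inl ⟨hk, h2⟩)
    have h2 := Finset.card_le_card h1
    rw [Finset.card_range] at h2
    have h3 := Finset.card_union_le (B1 ∪ B2) ((Finset.range (m + m₁ + t + 3)).filter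
      (fun k => GC D U (x k) ∧ ¬ ∃ c, Cp D U (x k) c ∧ c ≠ p k ∧ c ≠ q k))
    have h4 := Finset.card_union_le B1 B2
    omega
  obtain ⟨s, hs, hsB⟩ := SelAux.enum
    (fun k => GC D U (x k) ∧ ¬ ∃ c, Cp D U (x k) c ∧ c ≠ p k ∧ c ≠ q k) m (m + m₁ + t + 3) c4
  have htwo : ∀ k < m, ∀ a, Cp D U (x (s k)) a → a = p (s k) ∨ a = q (s k) := by
    intro k hk a ha
    by_contra h1
    rw [not_or] at h1
    exact (hsB k hk).2 ⟨a, ha, h1.1, h1.2⟩
  have htr : ∀ k < m, ∀ a, Cp D U (p (s k)) a → Cp D U (x (s k)) a := fun k hk a ha =>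
    SelAux.comp_trans hU (hxU _ (hs.2 k hk)) (hpq _ (hs.2 k hk)).1 ha
  refine ⟨s, hs, ⟨hU, hv, hw, ?_, ?_, ?_, ?_⟩, ?_⟩
  · exact FrAux.sys hU hS s hs.2 (fun k hk l hl e => SelAux.incr_inj hs hk hl e) (p ∘ s) (q ∘ s)
      (fun k hk => (hpq _ (hs.2 k hk)).1) (fun k hk => (hpq _ (hs.2 k hk)).2.1)
      (fun k hk => hpqne _ (hs.2 k hk))
  · intro k hk u hu a b ha hb hab
    exact (hsB k hk).1 u hu a b (htr k hk a ha) (htr k hk b hb) hab
  · intro k hk a ha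
    exact htwo k hk a (htr k hk a ha)
  · intro k hk
    exact (hpq _ (hs.2 k hk)).2.2
  · intro k hk
    have h1 : x (s k) ≠ y (s k) := (((hS.1 _ (hs.2 k hk) _ (hs.2 k hk)).1).2 rfl).ne
    rcases htwo k hk _ (hxC _ (hs.2 k hk)) with h2 | h2
    · rcases htwo k hk _ (hyC _ (hs.2 k hk)) with h3 | h3
      · exact absurd (h2.trans h3.symm) h1
      · exact Or.inl ⟨h2, h3⟩
    · rcases htwo k hk _ (hyC _ (hs.2 k hk)) with h3 | h3
      · exact Or.inr ⟨h2, h3⟩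
      · exact absurd (h2.trans h3.symm) h1

end Pool.Agent.MPd439b2.ON2
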