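import Pool.Agent.Lib.MP_d439b2_co.ON2.Spec

/-!
# MP_d439b2_co, ON2/Pi: the places (helper82)
-/

set_option autoImplicit false

namespace Pool.Agent.MPd439b2.ON2

open Pool.Agent.MPd439b2
open Pool.Agent.MPd439b2.Rep
open Pool.Agent.MPd439b2.W
open Pool.Agent.MPd439b2.A0
open Pool.Agent.MPd439b2.ON

theorem pPi : S_Pi := by
  classical
  intro t n s V _ D hE
  have h1 : ∀ v : V, ∃ e : V, v ∉ Sh D t n → ∃ U, Gc D t n U ∧ FP D U e v := by
    intro v
    by_cases hv : v ∈ Sh D t n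
    · exact ⟨v, fun h => absurd hv h⟩
    · have h2 : ∃ U, Gc D t n U ∧ v ∈ FS D U := by
        by_contra hcon
        exact hv fun U hU hvU => hcon ⟨U, hU, hvU⟩
      obtain ⟨U, hU, e, he⟩ := h2
      exact ⟨e, fun _ => ⟨U, hU, he⟩⟩
  choose π hπ using h1
  refine ⟨π, ⟨hπ, ?_⟩, ?_⟩
  · intro v hv U' hU' hvU'
    obtain ⟨U, hU, hFP⟩ := hπ v hv
    by_cases hUU : U = U'
    · subst hUU
      exact (hE.f0 U hU).2.2.1 (π v) ⟨v, hFP⟩ hvU'
    · exact hE.f2 U U' hU hU' hUU (π v) hvU' hFP.1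
  · intro p
    by_contra hcon
    have hcon' : s < ({v | v ∉ Sh D t n ∧ π v = p} : Set V).ncard := not_le.1 hcon
    have hfin : ({v | v ∉ Sh D t n ∧ π v = p} : Set V).Finite := Set.toFinite _
    have hcard : s ≤ hfin.toFinset.card := by
      rw [← Set.ncard_eq_toFinset_card _ hfin]
      exact hcon'.le
    obtain ⟨T, hT, hTc⟩ := Finset.exists_subset_card_eq hcard
    have e := T.equivFinOfCardEq hTc
    have hmem : ∀ i : Fin s, ((e.symm i : V) ∉ Sh D t n ∧ π (e.symm i : V) = p) := by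
      intro i
      have h2 := hT (e.symm i).2
      rw [Set.Finite.mem_toFinset] at h2
      exact h2
    have h3 : ∀ i : Fin s, ∃ U, Gc D t n U ∧ FP D U p (e.symm i : V) := by
      intro i
      obtain ⟨U, hU, hFP⟩ := hπ _ (hmem i).1
      rw [(hmem i).2] at hFP
      exact ⟨U, hU, hFP⟩
    choose c hc hc' using h3
    refine hE.few (fun i => if h : i < s then c ⟨i, h⟩ else ∅) ?_ ?_
    · intro i hi
      simp only [dif_pos hi]
      exact hc ⟨i, hi⟩
    · intro i hi j hj hij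
      simp only [dif_pos hi, dif_pos hj] at hij
      have h4 := hc' ⟨i, hi⟩
      have h5 := hc' ⟨j, hj⟩
      rw [← hij] at h5
      have h6 := (hE.f0 _ (hc ⟨i, hi⟩)).2.1 p _ _ h4 h5
      have h7 : (⟨i, hi⟩ : Fin s) = ⟨j, hj⟩ := e.symm.injective (Subtype.ext h6)
      exact congrArg Fin.val h7

end Pool.Agent.MPd439b2.ON2
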