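import Pool.Agent.Lib.MP_d439b2_co.ON2.Spec
import Pool.Agent.Lib.MP_d439b2_co.ON.Sel

/-!
# MP_d439b2_co, ON2/So: sorting a pattern (helper82)
-/

set_option autoImplicit false

namespace Pool.Agent.MPd439b2.ON2

open Pool.Agent.MPd439b2
open Pool.Agent.MPd439b2.Rep
open Pool.Agent.MPd439b2.W
open Pool.Agent.MPd439b2.A0
open Pool.Agent.MPd439b2.ON

theorem pSo : S_So := by
  classical
  intro M
  refine ⟨M + M, ?_⟩
  intro t n V D U S v w m p q u z κ R hR hO hP
  -- the values of `z` are different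
  have hz : ∀ i < M + M, ∀ j < M + M, z i = z j → i = j := by
    intro i hi j hj hij
    have h1 : R i i ↔ R i j := by
      rw [← hP.rel i hi i hi, ← hP.rel i hi j hj, hij]
    have h2 : R j j ↔ R j i := by
      rw [← hP.rel j hj j hj, ← hP.rel j hj i hi, hij]
    rcases hR with hR | hR | hR
    · subst hR
      exact h1.1 rfl
    · subst hR
      by_contra h3
      exact (h1.2 h3) rfl
    · subst hR
      exact le_antisymm (h1.1 le_rfl) (h2.1 le_rfl)
  have hR' : ∀ τ : ℕ → ℕ, Incr M (M + M) τ → ∀ i < M, ∀ j < M, (R (τ i) (τ j) ↔ R i j) := by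
    intro τ hτ i hi j hj
    have h1 : τ i = τ j ↔ i = j := ⟨SelAux.incr_inj hτ hi hj, fun h => by rw [h]⟩
    have h2 : τ i ≤ τ j ↔ i ≤ j := by
      constructor
      · intro h
        by_contra h3
        have := hτ.1 j i (by omega) hi
        omega
      · intro h
        rcases h.eq_or_lt with h3 | h3
        · rw [h3]
        · exact (hτ.1 i j h3 hj).le
    rcases hR with hR | hR | hR
    · subst hR
      exact h1
    · subst hR
      exact not_congr h1
    · subst hR
      exact h2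
  obtain ⟨sy, syU⟩ := hO.sy
  have gcq : ∀ k < m, GC D U (q k) := by
    intro k hk y hy a b ha hb hab
    have h1 : Cp D U (p k) (q k) :=
      ⟨(syU k hk).2, Or.inr (((sy k hk k hk).1.2 rfl).symm)⟩
    exact hO.gc k hk y hy a b (SelAux.comp_trans hO.up (syU k hk).1 h1 ha)
      (SelAux.comp_trans hO.up (syU k hk).1 h1 hb) hab
  rcases SelAux.split (fun i => z i = p (κ i)) M M with ⟨τ, hτ, hτz⟩ | ⟨τ, hτ, hτz⟩
  · have hk : ∀ k < M, κ (τ k) < m := fun k hk => hP.km _ (hτ.2 k hk)
    have hinj : ∀ i < M, ∀ j < M, (κ (τ i) = κ (τ j) ↔ i = j) := by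
      intro i hi j hj
      constructor
      · intro h
        refine SelAux.incr_inj hτ hi hj (hz _ (hτ.2 i hi) _ (hτ.2 j hj) ?_)
        rw [hτz i hi, hτz j hj, h]
      · intro h
        rw [h]
    refine ⟨v, w, fun k => z (τ k), fun k => q (κ (τ k)), fun k => u (τ k), ?_⟩
    refine ⟨⟨fun i hi j hj => ?_, fun i hi => ?_⟩, fun k hk' => ?_, fun k hk' => hP.uU _ (hτ.2 k hk'),
      fun k hk' => hP.uS _ (hτ.2 k hk'), fun k hk' => hP.zS _ (hτ.2 k hk'), fun k hk' => ?_,
      hO.vU, hO.wU, fun i hi j hj => ?_⟩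
    · have h1 := sy _ (hk i hi) _ (hk j hj)
      simp only [hτz i hi, hτz j hj]
      exact ⟨h1.1.trans (hinj i hi j hj), h1.2⟩
    · simp only [hτz i hi]
      exact syU _ (hk i hi)
    · simp only [hτz k hk']
      exact hO.gc _ (hk k hk')
    · simp only [hτz k hk']
      exact hO.vw _ (hk k hk')
    · exact (hP.rel _ (hτ.2 i hi) _ (hτ.2 j hj)).trans (hR' τ hτ i hi j hj)
  · have hk : ∀ k < M, κ (τ k) < m := fun k hk => hP.km _ (hτ.2 k hk)
    have hτq : ∀ k < M, z (τ k) = q (κ (τ k)) := by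
      intro k hk'
      rcases hO.two _ (hk k hk') _ (hP.zc _ (hτ.2 k hk')) with h | h
      · exact absurd h (hτz k hk')
      · exact h
    have hinj : ∀ i < M, ∀ j < M, (κ (τ i) = κ (τ j) ↔ i = j) := by
      intro i hi j hj
      constructor
      · intro h
        refine SelAux.incr_inj hτ hi hj (hz _ (hτ.2 i hi) _ (hτ.2 j hj) ?_)
        rw [hτq i hi, hτq j hj, h]
      · intro h
        rw [h]
    refine ⟨w, v, fun k => z (τ k), fun k => p (κ (τ k)), fun k => u (τ k), ?_⟩
    refine ⟨⟨fun i hi j hj => ?_, fun i hi => ?_⟩, fun k hk' => ?_, fun k hk' => hP.uU _ (hτ.2 k hk'),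
      fun k hk' => hP.uS _ (hτ.2 k hk'), fun k hk' => hP.zS _ (hτ.2 k hk'), fun k hk' => ?_,
      hO.wU, hO.vU, fun i hi j hj => ?_⟩
    · have h1 := sy _ (hk j hj) _ (hk i hi)
      have h2 := sy _ (hk i hi) _ (hk j hj)
      simp only [hτq i hi, hτq j hj]
      refine ⟨?_, h2.2.2, h2.2.1⟩
      rw [D.adj_comm, h1.1, hinj j hj i hi]
      exact eq_comm
    · simp only [hτq i hi]
      exact (syU _ (hk i hi)).symm
    · simp only [hτq k hk']
      exact gcq _ (hk k hk')
    · simp only [hτq k hk']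
      have h1 := hO.vw _ (hk k hk')
      exact ⟨h1.2.2.2, h1.2.2.1, h1.2.1, h1.1⟩
    · exact (hP.rel _ (hτ.2 i hi) _ (hτ.2 j hj)).trans (hR' τ hτ i hi j hj)

end Pool.Agent.MPd439b2.ON2
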