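import Pool.Agent.Lib.MP_d439b2_co.ON.Final
import Pool.Agent.Lib.MP_d439b2_co.ON2.HK
import Pool.Agent.Lib.MP_d439b2_co.ON2.HB
import Pool.Agent.Lib.MP_d439b2_co.ON2.JG
import Pool.Agent.Lib.MP_d439b2_co.ON2.Fr
import Pool.Agent.Lib.MP_d439b2_co.ON2.OE
import Pool.Agent.Lib.MP_d439b2_co.ON2.So
import Pool.Agent.Lib.MP_d439b2_co.ON2.Ne
import Pool.Agent.Lib.MP_d439b2_co.ON2.Le
import Pool.Agent.Lib.MP_d439b2_co.ON2.Cl
import Pool.Agent.Lib.MP_d439b2_co.ON2.F2
import Pool.Agent.Lib.MP_d439b2_co.ON2.En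
import Pool.Agent.Lib.MP_d439b2_co.ON2.Pi
import Pool.Agent.Lib.MP_d439b2_co.ON2.Cu
import Pool.Agent.Lib.MP_d439b2_co.ON2.Gk
import Pool.Agent.Lib.MP_d439b2_co.ON2.Eq
import Pool.Agent.Lib.MP_d439b2_co.ON2.NM
import Pool.Agent.Lib.MP_d439b2_co.ON2.Asm

/-!
# MP_d439b2_co, ON2: Theorem O1 (`K3:0,1,02`), final form (helper28)

`o1 : S_TO` (large induced matchings of the complement can be removed when there is no thin spider and no `n K_2`;
thick spiders are allowed) and `o1Red`, the replacement step for `K3:0,1,02`, `co(P3 + t P2)`.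
-/

set_option autoImplicit false

namespace Pool.Agent.MPd439b2.ON2

open Pool.Agent.MPd439b2
open Pool.Agent.MPd439b2.Rep
open Pool.Agent.MPd439b2.W
open Pool.Agent.MPd439b2.A0

theorem pts : Pts where
  ram := W.ramC
  jb := ON.oJB
  jab := ON.oJAB
  jce := ON.oJCE
  jff := ON.oJFF
  u1 := ON.oU1
  u2 := ON.oU2
  ba := ON.oBa
  ch := ON.oCh
  f0 := ON.oF0
  ri := ON.oRI
  lx := ON.oLX
  ls := ON.oLS
  kx := ON.oKX
  tw := ON.oTw
  pa := ON.oPa
  ty := ON.oTy
  hk := pHK
  hb := pHB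
  jg := pJG
  fr := pFr
  oe := pOE
  so := pSo
  ne := pNe
  le := pLe
  cl := pCl
  f2 := pF2
  en := pEn
  pi := pPi
  cu := pCu
  gk := pGk
  eq := pEq
  nm := pNM

/-- **Theorem O1** (twin-free graphs) -/
theorem o1 : S_TO := asmTO pts

/-- **Theorem O1**, the replacement step: if thin spiders and `n K_2` are excluded (`T` contains both types) then it is
enough to bound the graphs in which large induced matchings of the complement are excluded as well. -/
theorem o1Red {t : ℕ} (T : Set Ty) (t1 : (true, false, false) ∈ T) (t2 : (false, false, false) ∈ T)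
    (hB : BLT K302 (JP t) (insert (true, true, true) T)) : BLT K302 (JP t) T :=
  red pts T t1 t2 hB

end Pool.Agent.MPd439b2.ON2
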