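import Pool.Agent.Lib.MP_d439b2_co.ON2.Spec

/-!
# MP_d439b2_co, ON2/En: few classes (helper37)
-/

set_option autoImplicit false

namespace Pool.Agent.MPd439b2.ON2

open Pool.Agent.MPd439b2
open Pool.Agent.MPd439b2.Rep
open Pool.Agent.MPd439b2.W
open Pool.Agent.MPd439b2.A0
open Pool.Agent.MPd439b2.ON

namespace EnAux

theorem en (hU2 : ON.S_U2) (hF0 : ON.S_F0) (hF2 : S_F2) (t n s : ℕ) (V : Type) [Nonempty V]
    (D : SimpleGraph V) (htw : TwF D) (htn : t + 4 ≤ n) (hNK : NK D s) : En D t n s := by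
  have f2 : ∀ U U', Gc D t n U → Gc D t n U' → U ≠ U' → ∀ f ∈ FS D U', f ∉ U :=
    hF2 hU2 hF0 t n V D htw htn
  refine ⟨f2, fun U hU => ?_, fun c hc hinj => ?_⟩
  · obtain ⟨h1, h2, h3⟩ := hF0 t n V D U hU.1
    exact ⟨h1, h2, (h3 htw).1, (h3 htw).2⟩
  · have hex : ∀ i, ∃ a b : V, i < s → a ≠ b ∧ a ∈ FS D (c i) ∧ b ∈ FS D (c i) := by
      intro i
      by_cases hi : i < s
      · obtain ⟨e, f, hf, hfp⟩ := (hc i hi).2
        refine ⟨f 0, f 1, fun _ => ⟨fun h => ?_, ⟨e 0, hfp 0 (by omega)⟩, ⟨e 1, hfp 1 (by omega)⟩⟩⟩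
        exact absurd (hf 0 (by omega) 1 (by omega) h) (by omega)
      · exact ⟨Classical.arbitrary V, Classical.arbitrary V, fun h => absurd h hi⟩
    choose a b hab using hex
    have hadj : ∀ i < s, ∀ j < s, i ≠ j → ∀ x ∈ FS D (c i), ∀ y ∈ FS D (c j), D.Adj x y := by
      intro i hi j hj hij x hx y hy
      have hcij : c i ≠ c j := fun h => hij (hinj i hi j hj h)
      have hy' : y ∉ c i := f2 (c i) (c j) (hc i hi) (hc j hj) hcij y hy
      obtain ⟨e, he⟩ := hx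
      exact (he.2.2.2.1 y hy').symm
    refine hNK a b (fun i hi j hj hij => ?_) fun i hi => ?_
    · exact ⟨hadj i hi j hj hij _ (hab i hi).2.1 _ (hab j hj).2.1,
        hadj i hi j hj hij _ (hab i hi).2.2 _ (hab j hj).2.2,
        hadj i hi j hj hij _ (hab i hi).2.1 _ (hab j hj).2.2⟩
    · obtain ⟨h1, h2, h3⟩ := hab i hi
      exact ⟨h1, ((hF0 t n V D (c i) (hc i hi).1).2.2 htw).2 _ h2 _ h3⟩

end EnAux

theorem pEn : S_En := by
  intro h1 h2 h3 t n s V _ D h4 h5 h6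
  exact EnAux.en h1 h2 h3 t n s V D h4 h5 h6

end Pool.Agent.MPd439b2.ON2
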