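import Pool.Agent.Lib.MP_d439b2_co.ON.Spec
import Pool.Agent.Lib.MP_d439b2_co.Rep.RowX4

/-!
# MP_d439b2_co, ON2: large induced matchings of `D = co(G)` for `K3:0,1,02` (note 2880 of helper28)

**Theorem O1.** `G` without the induced minors `K3:0,1,02`, `J_t = co(P_3 + t P_2)`, without thin spider and without
`n K_2` of size `m`, and with `Link β c₀`: there is an induced subgraph of `G` without induced `D`-matchings of size
`n₁` whose layouts extend to layouts of `G` (with bounded loss).  (Thick spiders are allowed.)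

The notation is that of `ON/Spec.lean`: everything is written for `D = co(G)`; `x ~ y` ('x sees y') means
`D.Adj x y`, 'misses' means `¬ D.Adj x y`; `UP D t n U`: the class `U`, a disjoint union of cliques in `D`;
`Cp D U x a`: `a` is in the component of `x`; `GC`: every vertex outside `U` misses at most one vertex of the
component.  The modules of `ON` which do not use `K4:0,1` are reused (`S_U1`, `S_U2`, `S_Ba`, `S_Ch`, `S_F0`, `S_RI`,
`S_LX`, `S_LS`, `S_KX`, `S_Tw`, `S_Pa`, `S_Ty`, the facts `JF`).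

Every `S_...` is a statement to be proved in its own file; the docstring contains the complete proof; the used
statements are hypotheses of the theorem, in the order given in `(Uses ...)`.  The theorem for `S_X` is called
`pX` and is in the file `ON2/X.lean` (namespace `Pool.Agent.MPd439b2.ON2`).
-/

set_option autoImplicit false

namespace Pool.Agent.MPd439b2.ON2

open Pool.Agent.MPd439b2
open Pool.Agent.MPd439b2.Rep
open Pool.Agent.MPd439b2.W
open Pool.Agent.MPd439b2.A0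
open Pool.Agent.MPd439b2.ON

variable {V : Type}

/-- the graph `K3:0,1,02` -/
abbrev K302 : SimpleGraph (Fin 3 ⊕ Fin 3) := KA 3 3 ![{0}, {1}, {0, 2}]

/-! ### Definitions -/

/-- the absence of `K3:0,1,02`, blocks which are vertices: `co(K3:0,1,02)` is the triangle `y₀ y₁ z` and the
independent vertices `c₀ ~ y₁`, `c₁ ~ y₀, z`, `c₂ ~ y₀, y₁` -/
def FhI (D : SimpleGraph V) : Prop := ∀ c₀ c₁ c₂ y₀ y₁ z : V, D.Adj y₀ y₁ → D.Adj y₀ z → D.Adj y₁ z →
  D.Adj c₀ y₁ → ¬ D.Adj c₀ y₀ → ¬ D.Adj c₀ z → D.Adj c₁ y₀ → D.Adj c₁ z → ¬ D.Adj c₁ y₁ →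
  D.Adj c₂ y₀ → D.Adj c₂ y₁ → ¬ D.Adj c₂ z → ¬ D.Adj c₀ c₁ → ¬ D.Adj c₀ c₂ → ¬ D.Adj c₁ c₂ → False

/-- the same where the first block is `{c, c'}` -/
def FhM (D : SimpleGraph V) : Prop := ∀ c c' c₁ c₂ y₀ y₁ z : V, c ≠ c' → ¬ D.Adj c c' →
  c ≠ y₀ → c' ≠ y₀ → c ≠ z → c' ≠ z → c ≠ c₁ → c' ≠ c₁ → c ≠ c₂ → c' ≠ c₂ →
  D.Adj y₀ y₁ → D.Adj y₀ z → D.Adj y₁ z → D.Adj c y₁ → D.Adj c' y₁ →
  (¬ D.Adj c y₀ ∨ ¬ D.Adj c' y₀) → (¬ D.Adj c z ∨ ¬ D.Adj c' z) →
  D.Adj c₁ y₀ → D.Adj c₁ z → ¬ D.Adj c₁ y₁ → D.Adj c₂ y₀ → D.Adj c₂ y₁ → ¬ D.Adj c₂ z →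
  (¬ D.Adj c c₁ ∨ ¬ D.Adj c' c₁) → (¬ D.Adj c c₂ ∨ ¬ D.Adj c' c₂) → ¬ D.Adj c₁ c₂ → False

/-- `P_3 = a, b, {v, w}` and `t` edges -/
def FjG (D : SimpleGraph V) (t : ℕ) : Prop := ∀ (a b v w : V) (x y : ℕ → V), IM D t x y → v ≠ w →
  ¬ D.Adj v w → a ≠ v → a ≠ w → D.Adj a b → D.Adj v b → D.Adj w b → (¬ D.Adj v a ∨ ¬ D.Adj w a) →
  (∀ i < t, ¬ D.Adj a (x i) ∧ ¬ D.Adj a (y i) ∧ ¬ D.Adj b (x i) ∧ ¬ D.Adj b (y i) ∧
    (¬ D.Adj v (x i) ∨ ¬ D.Adj w (x i)) ∧ (¬ D.Adj v (y i) ∨ ¬ D.Adj w (y i))) → False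

/-- everything which is used of the absence of `J_t`, `K3:0,1,02` and of the thin spider of size `N` -/
structure HY (D : SimpleGraph V) (t N : ℕ) : Prop where
  jf : JF D t
  jg : FjG D t
  hb : HB D N
  hi : FhI D
  hd : FhD D N
  he : FhE D N

/-- no `s K_2` in `co(D)` -/
def NK (D : SimpleGraph V) (s : ℕ) : Prop := ∀ a b : ℕ → V,
  (∀ i < s, ∀ j < s, i ≠ j → D.Adj (a i) (a j) ∧ D.Adj (b i) (b j) ∧ D.Adj (a i) (b j)) →
  (∀ i < s, a i ≠ b i ∧ ¬ D.Adj (a i) (b i)) → False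

/-- `v` and `w` are opposite at the pair `p, q` -/
def Op (D : SimpleGraph V) (v w p q : V) : Prop :=
  ¬ D.Adj v p ∧ D.Adj v q ∧ D.Adj w p ∧ ¬ D.Adj w q

/-- two vertices which are opposite at all the edges of a system whose components have two elements -/
structure OE (D : SimpleGraph V) (t n : ℕ) (U : Set V) (v w : V) (m : ℕ) (p q : ℕ → V) : Prop where
  up : UP D t n U
  vU : v ∉ U
  wU : w ∉ U
  sy : Sy D U m p q
  gc : ∀ k < m, GC D U (p k)
  two : ∀ k < m, ∀ a, Cp D U (p k) a → a = p k ∨ a = q k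
  vw : ∀ k < m, Op D v w (p k) (q k)

/-- a pattern between vertices `u i` outside `U` and the vertices `P i` of a system `P, Q` at which `o₁`, `o₂` are
opposite -/
structure RD (D : SimpleGraph V) (U S : Set V) (o₁ o₂ : V) (m : ℕ) (P Q u : ℕ → V)
    (R : ℕ → ℕ → Prop) : Prop where
  sy : Sy D U m P Q
  gc : ∀ k < m, GC D U (P k)
  uU : ∀ k < m, u k ∉ U
  uS : ∀ k < m, u k ∈ S
  pS : ∀ k < m, P k ∈ S
  op : ∀ k < m, Op D o₁ o₂ (P k) (Q k)
  o1 : o₁ ∉ U
  o2 : o₂ ∉ U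
  rel : ∀ i < m, ∀ j < m, (D.Adj (u i) (P j) ↔ R i j)

/-- the classes which are used: classes with `n` free vertices -/
def Gc (D : SimpleGraph V) (t n : ℕ) (U : Set V) : Prop :=
  UP D t n U ∧ ∃ e f : ℕ → V, Inj n f ∧ ∀ i < n, FP D U (e i) (f i)

/-- the vertices which are kept: all vertices which are not free in a class -/
def Sh (D : SimpleGraph V) (t n : ℕ) : Set V := {v | ∀ U, Gc D t n U → v ∉ FS D U}

/-- the places of the other vertices -/
def IsPj (D : SimpleGraph V) (t n : ℕ) (π : V → V) : Prop :=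
  (∀ v ∉ Sh D t n, ∃ U, Gc D t n U ∧ FP D U (π v) v) ∧ ∀ v ∉ Sh D t n, π v ∈ Sh D t n

/-- what is used of the classes -/
structure En (D : SimpleGraph V) (t n s : ℕ) : Prop where
  f2 : ∀ U U', Gc D t n U → Gc D t n U' → U ≠ U' → ∀ f ∈ FS D U', f ∉ U
  f0 : ∀ U, Gc D t n U → (∀ e e' f, FP D U e f → FP D U e' f → e = e') ∧
    (∀ e f f', FP D U e f → FP D U e f' → f = f') ∧ (∀ e ∈ ES D U, e ∉ FS D U) ∧
    ∀ f ∈ FS D U, ∀ f' ∈ FS D U, ¬ D.Adj f f'
  few : ∀ c : ℕ → Set V, (∀ i < s, Gc D t n (c i)) → (∀ i < s, ∀ j < s, c i = c j → i = j) → False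

/-! ### 1. Models -/

/-- **HK.** The facts `FhI`, `FhM`.  (The general model of `K3:0,1,02` from six sets is the theorem `model` of
`H1/M0.lean`.)

Proof. `G = Dᶜ`: `Dᶜ.Adj u v ↔ u ≠ v ∧ ¬ D.Adj u v`.  `P = {c₀}` resp. `{c, c'}` (`Conn.pair`), `Q = {c₁}`, `R = {c₂}`,
`X = {y₀}`, `Y = {y₁}`, `Z = {z}`.  (`K3:0,1,02`: the triangle `P Q R`; `X` touches `P` only, `Y` touches `Q` only, `Z`
touches `P` and `R`.)  The vertices are different: FhI: `c₀ ≠ c₁` (`z`), `c₀ ≠ c₂` (`y₀`), `c₁ ≠ c₂` (`y₁`), `c₀ ≠ y₀` (`z`),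
`c₀ ≠ z` (`y₀`), `c₁ ≠ y₁` (`c₀ ~ y₁`, `c₀ ≁ c₁`), `c₂ ≠ z` (`c₁ ~ z`, `c₁ ≁ c₂`), the other pairs are adjacent.  FhM: the
same for `c₁ ≠ y₁` (`c` and `c'` see `y₁`, one of them misses `c₁`), `c₂ ≠ z`, `c₁ ≠ c₂`. -/
def S_HK : Prop := ∀ (V : Type) (D : SimpleGraph V), ¬ IMS K302 Dᶜ Set.univ → FhI D ∧ FhM D

/-- **HB.** The facts about matchings.

Proof. FhA: `FhI` with `c₀ = x 1`, `c₁ = y 2`, `c₂ = x 0`, `y₀ = v 1`, `y₁ = v 2`, `z = v 0`.
FhB: `FhM` with `c = y 0`, `c' = y 2`, `c₁ = x 0`, `c₂ = y 1`, `y₀ = v 1`, `y₁ = v 0`, `z = v 2`.  (`y 0 ≠ v 1`: `v 1 ~ y 1`;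
`y 0 ≠ v 2`: `v 2 ~ x 1`; `y 2 ≠ v 1, v 2`: `v 1, v 2 ~ x 0`; `y 0 ~ x 0` but `y 2 ≁ x 0`; the `y i` are different since
`v j ~ y i` iff `j ≤ i`; `y 2 ≠ x 0`: `v 0`.)
FhD: `FhI` with `c₀ = p 0`, `c₁ = p 2`, `c₂ = q 1`, `y₀ = u 2`, `y₁ = u 0`, `z = q 2`.
FhE: `FhM` with `c = q 0`, `c' = p 2`, `c₁ = u 0`, `c₂ = p 3`, `y₀ = w`, `y₁ = z`, `z = p 0`.  (`w ~ p 1`, so `w ≠ q 0, p 2`;
`q 0 ~ p 0` but `p 2 ≁ p 0`; `q 0 ~ u 0` but `p 2 ≁ u 0`; `u 0 ≠ p 2`: `u 0 ~ q 1`; ...) -/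
def S_HB : Prop := ∀ (V : Type) (D : SimpleGraph V) (N : ℕ), 4 ≤ N → FhI D → FhM D → FhS D N →
  HB D N ∧ FhD D N ∧ FhE D N

/-- **JG.** The fact `FjG`.  (Uses `ON.S_JB`.)

Proof. `G = Dᶜ`, `X 0 = {b}`, `X 1 = {a}`, `X 2 = {v, w}` (`Conn.pair`), `Y i = {x i}`, `Z i = {y i}`.  `X 1` and `X 2` touch
(`a ≠ v, w` and one of them misses `a`).  The vertices are different: `a, b ≠ x i` since `x i ~ y i`; `v, w ≠ x i` since
`v, w ~ b`; the same for `y i`. -/
def S_JG : Prop := ON.S_JB → ∀ (t : ℕ) (V : Type) (D : SimpleGraph V), ¬ IMS (JP t) Dᶜ Set.univ →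
  FjG D t

/-! ### 2. Opposite pairs -/

/-- **Fr.** Free pairs or opposite vertices.  (Uses `W.S_RamC`, `ON.S_Ba`, `ON.S_Ch`.)

Proof. (Compare `ON.S_Fr`.)  `m₁` from Ba; `M₂` from Ch for `m = h`, `M₃` from Ch for `m = M₂`; `b = m₁ + M₃`.
`L k` = the component of `x k` in `D[U]` (`Cp D U (x k)`; a clique by `p3`; the `L k` are pairwise disjoint and
anticomplete; `x k, y k ∈ L k`).  CLAIM: for every `k` (A) some `v ∉ U` misses two different elements `a, a'` of
`L k`, or (B) there are `a ≠ a'` in `L k` and `v, w ∉ U`, `v` misses `a` and sees `a'`, `w` misses `a'` and sees `a`.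
Otherwise at most one element of `L k` is missed by vertices outside `U`.  If `L k` has three elements, two of them
are seen by all vertices outside `U`: they are adjacent twins (`TwF`).  If `L k = {x k, y k}`, then one of them is seen by
all vertices outside: it is free, against the hypothesis.
If (A) is true for `m₁` indices: the pairs `a, a'` (adjacent; a system in `U`) contradict Ba.  Otherwise (B) is true
for `M₃` indices (enumerate them increasingly); Ch for `a, a', v` gives `v' = v k₀` which misses `M₂` of the `a`'s and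
sees the `a'`'s (on an increasing subsystem); Ch for `a', a, w` on this subsystem gives `w'` which misses `h` of the
`a'` and sees the `a`.  `p`, `q` = the `a`, `a'`; `σ` = the composition of the increasing maps. -/
def S_Fr : Prop := W.S_RamC → ON.S_Ba → ON.S_Ch → ∀ t N h : ℕ, ∃ b : ℕ, ∀ (V : Type)
  (D : SimpleGraph V), JF D t → HB D N → TwF D → ∀ (n : ℕ) (U : Set V), UP D t n U →
    ∀ x y : ℕ → V, Sy D U b x y → (∀ k < b, ¬ FP D U (x k) (y k) ∧ ¬ FP D U (y k) (x k)) →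
      ∃ (v w : V) (σ : ℕ → ℕ) (p q : ℕ → V), v ∉ U ∧ w ∉ U ∧ Incr h b σ ∧
        ∀ k < h, Cp D U (x (σ k)) (p k) ∧ Cp D U (x (σ k)) (q k) ∧ Op D v w (p k) (q k)

/-- **OE.** Opposite pairs live on components with two elements.  (Uses `W.S_RamC`, `ON.S_Ba`.)

Proof. `m₁` from Ba; `M = m + m₁ + t + 3`.  `p k ≠ q k` (`v`), so `p k ~ q k` (both are in the component of `x k`, `p3`).
The components of the `x k` are pairwise disjoint and anticomplete (`Sy`, `p3`).
(1) Fewer than `m₁` indices `k` have `¬ GC D U (x k)`: for such `k` there are `u_k ∉ U` and `a ≠ b` in the component of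
`x k` which it misses; `a ~ b`, and for different `k` these pairs are a system in `U`: Ba.
(2) Let `k` have `GC` and a third element `c k ≠ p k, q k` of the component.  `v` misses `p k`, so it sees `c k`; `w`
misses `q k`, so it sees `c k`.  CLAIM: there are at most two such `k`.  `v ≠ w` (`p k`).
`v ~ w`: three such indices `0, 1, 2` contradict `FhI` with `c₀ = q 1`, `c₁ = p 0`, `c₂ = c 2`, `y₀ = w`, `y₁ = v`, `z = c 0`.
`v ≁ w`: one such `k` contradicts `FjG` with `a = p k`, `b = c k`, `v`, `w` and the edges `p i, q i` for `t` other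
indices `i` (any indices `< M`; `a ≠ v, w` since `a ∈ U`).
(3) So `m` indices are left; enumerate them increasingly: `σ`.  `GC D U (p k)` and `two` follow from the statements
for `x k`, because the component of `p k` is the component of `x k` (`p3`).  `{x k, y k} = {p k, q k}` since `x k`, `y k`
are two different elements of the component. -/
def S_OE : Prop := W.S_RamC → ON.S_Ba → ∀ t N m : ℕ, ∃ M : ℕ, ∀ (V : Type) (D : SimpleGraph V),
  HY D t N → ∀ (n : ℕ) (U : Set V), UP D t n U → ∀ (v w : V) (x y p q : ℕ → V), v ∉ U → w ∉ U →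
    Sy D U M x y →
    (∀ k < M, Cp D U (x k) (p k) ∧ Cp D U (x k) (q k) ∧ Op D v w (p k) (q k)) →
    ∃ σ : ℕ → ℕ, Incr m M σ ∧ OE D t n U v w m (p ∘ σ) (q ∘ σ) ∧
      ∀ k < m, (x (σ k) = p (σ k) ∧ y (σ k) = q (σ k)) ∨ (x (σ k) = q (σ k) ∧ y (σ k) = p (σ k))

/-- **So.** Sorting a pattern.

Proof. `M' = 4 * M + 1`.  Every `z i` is `p (κ i)` or `q (κ i)` (`zc`, `two`).  `z i ≠ z j` for `i ≠ j`, say `i < j < M'`: for
the relation `i = j` `u i` sees `z i`, not `z j`; for `i ≠ j` the other way round; for `i ≤ j`: `u j` sees `z j`, not `z i`.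
So every value of `κ` is taken at most twice, and there are `2 * M` indices with different values of `κ` (for
example the `i < M'` such that `κ i' ≠ κ i` for all `i' < i`; the fibres have at most two elements); for `M` of them
`z i = p (κ i)`, or for `M` of them `z i = q (κ i)`.  Enumerate these indices increasingly: `σ`.  `P = z ∘ σ`,
`u' = u ∘ σ`; in the first case `Q = q ∘ κ ∘ σ`, `o₁ = v`, `o₂ = w`; in the second case `Q = p ∘ κ ∘ σ`, `o₁ = w`, `o₂ = v`.
The three relations are preserved by the increasing map `σ`.  (`GC D U (q k)` follows from `GC D U (p k)`: the same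
component.) -/
def S_So : Prop := ∀ M : ℕ, ∃ M' : ℕ, ∀ (t n : ℕ) (V : Type) (D : SimpleGraph V) (U S : Set V)
  (v w : V) (m : ℕ) (p q u z : ℕ → V) (κ : ℕ → ℕ) (R : ℕ → ℕ → Prop),
    (R = (fun i j => i = j) ∨ R = (fun i j => i ≠ j) ∨ R = (fun i j => i ≤ j)) →
    OE D t n U v w m p q → PD D U S m p M' u z κ R →
      ∃ (o₁ o₂ : V) (P Q u' : ℕ → V), RD D U S o₁ o₂ M P Q u' R

/-- **Ne.** No co-matching.  (Uses `W.S_RamC`.)

Proof. `M` = the number of `S_RamC` for the colours `Bool` and `max ((t + 3) ^ 2) N + 2`; `χ i j = u i ~ u j`; `s` the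
homogeneous sequence.  The `u i` are different (`u i` misses only `P i`), so on `s` they are independent or a clique;
the `P i` are independent.  `FjF` (`jf.jF`) or `FhS` (`hb.hS`) with `a = P ∘ s` and the `u ∘ s` (`Cam`: symmetric). -/
def S_Ne : Prop := W.S_RamC → ∀ t N : ℕ, ∃ M : ℕ, ∀ (V : Type) (D : SimpleGraph V), HY D t N →
  ∀ (U S : Set V) (o₁ o₂ : V) (P Q u : ℕ → V),
    RD D U S o₁ o₂ M P Q u (fun i j => i ≠ j) → False

/-- **Le.** No half graph.  (Uses `W.S_RamC`.)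

Proof. `M` = the number of `S_RamC` for the colours `Bool × Bool` and `m₀ = t + 8`; `χ i j = (u i ~ u j, u i ~ Q j)`; let `s` be
the homogeneous sequence, of colour `(η, α)`, and write `i` for `s i`, `i < m₀` (the relation `i ≤ j` is preserved).
For `j < i` `u i` misses `P j`, so it sees `Q j` (`GC`).  The `u i` are different (`i < j`: `u i ~ P i`, `u j ≁ P i`).
`P i`, `Q i` are in different components for different `i` (`Sy`: `IM`).
(a) `α = true`: `u i ~ Q j` for `i < j`.  Let `c = u (t + 1)` and `o = o₂` (it sees all `P j` and misses all `Q j`);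
`c ≠ o` (`Q (t + 2)`).  `c` misses `P l` for `l < t + 1` and sees `P l`, `Q l` for `l > t + 1`.
`c ~ o`: `FhI` with `c₀ = P 0`, `c₁ = Q (t + 2)`, `c₂ = P (t + 3)`, `y₀ = c`, `y₁ = o`, `z = P (t + 2)`.
`c ≁ o`: `FjB` (`jf.jB`) with the block `{c, o}`, `a = P (t + 2)`, `b = P (t + 3)` and the edges `P l, Q l`, `l < t`:
`c` misses `P l`, `o` misses `Q l`.
(b) `α = false`: for `i < j` `u i` sees `P j` and misses `Q j`; for `j < i` it misses `P j` and sees `Q j`.
`η = false`: `FjG` with `a = P 0`, `b = Q 0`, `v = u 1`, `w = u (t + 2)` and the edges `P j, Q j`, `2 ≤ j < t + 2`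
(`u 1` misses `Q j`, `u (t + 2)` misses `P j`).
`η = true`: `FhI` with `c₀ = P 1`, `c₁ = Q 2`, `c₂ = P 4`, `y₀ = u 3`, `y₁ = u 0`, `z = u 5`. -/
def S_Le : Prop := W.S_RamC → ∀ t N : ℕ, ∃ M : ℕ, ∀ (V : Type) (D : SimpleGraph V), HY D t N →
  ∀ (U S : Set V) (o₁ o₂ : V) (P Q u : ℕ → V),
    RD D U S o₁ o₂ M P Q u (fun i j => i ≤ j) → False

/-- **Cl.** The matching of the exceptional vertices has no opposite pair.  (Uses `W.S_RamC`, `ON.S_Ba`, `S_OE`.)

Proof. `m₁ = 4 * (t + 2 + N)`; `h` from OE for `m = m₁`.  OE for the class `U'`, the system `u k, P k` (`FD`: `up`; it is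
in `U'`), the vertices `v', w'` and `p', q'` gives `σ` and `OE D t n U' v' w' m₁ ..` with
`{u k, P k} = {p' k, q' k}` for the indices `k = σ l`.  If `u k = p' k`, `P k = q' k` then `z = v'` misses `u k` and sees
`P k`; otherwise `z = w'` misses `u k = q' k` and sees `P k = p' k`.  For half of the indices it is the same `z`; among
these, for half of them `z` sees `Q k` or for half of them `z` misses `Q k`.  Pass to these indices (`FD` is inherited
by injective subsequences; at least `t + 2 + N` are left).  `z ≠ w` (`w` sees the `u k`).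
`z` misses the `Q k`: `jD` (`jf.jD`).  `z` sees the `Q k`: if `z ≁ w` `jE`, if `z ~ w` `he`. -/
def S_Cl : Prop := W.S_RamC → ON.S_Ba → S_OE → ∀ t N : ℕ, ∃ h : ℕ,
  ∀ (V : Type) (D : SimpleGraph V), HY D t N → ∀ (n : ℕ) (U U' : Set V) (w : V)
    (P Q u : ℕ → V), FD D U w h P Q u → UP D t n U' → (∀ k < h, u k ∈ U' ∧ P k ∈ U') →
      ∀ (v' w' : V) (p' q' : ℕ → V), v' ∉ U' → w' ∉ U' →
        (∀ k < h, Cp D U' (u k) (p' k) ∧ Cp D U' (u k) (q' k) ∧ Op D v' w' (p' k) (q' k)) → False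

/-! ### 3. Families -/

/-- **F2.** Free vertices of another class are outside.  (Uses `ON.S_U2`, `ON.S_F0`.)

Proof. (1) If two different free vertices `f₁, f₂` of `U` are in `U'`, then `U' ⊆ U`: a vertex `z ∈ U'`, `z ∉ U` sees `f₁`
and `f₂`, so `f₁ ~ f₂` or `f₁ = f₂` (`p3` for `U'`), against F0 (4).  Then `U' = U` by U2: the first `t + 1 ≤ n` edges of
the system of `U'` (`sys`) are a system in both.
(2) Let `f ∈ FS D U'` and `f ∈ U`.  By (1) at most one of the `n ≥ 4` free vertices of `U` is in `U'`; the other ones are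
outside `U'`, so `f` sees them.  Two of them, `f₁ ≠ f₂`, are in `U` and `f ∈ U`: `f₁ ~ f₂` by `p3`, against F0 (4). -/
def S_F2 : Prop := ON.S_U2 → ON.S_F0 → ∀ (t n : ℕ) (V : Type) (D : SimpleGraph V), TwF D →
  t + 4 ≤ n → ∀ U U' : Set V, Gc D t n U → Gc D t n U' → U ≠ U' → ∀ f ∈ FS D U', f ∉ U

/-- **En.** (Uses `ON.S_U2`, `ON.S_F0`, `S_F2`.)

Proof. `f2`, `f0` by F2, F0.  `few`: let `c 0, ..., c (s - 1)` be different classes; `a i ≠ b i` = two free vertices of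
`c i` (`n ≥ 2`; choose them for every `i < s`).  `a i ≁ b i` (F0 (4)).  For `i ≠ j` the free vertices of `c j` are outside `c i` (F2), so they see the free
vertices of `c i` (definition of `FP`).  This is excluded by `NK D s`. -/
def S_En : Prop := ON.S_U2 → ON.S_F0 → S_F2 → ∀ (t n s : ℕ) (V : Type) [Nonempty V] (D : SimpleGraph V),
  TwF D → t + 4 ≤ n → NK D s → En D t n s

/-- **Pi.** The places.

Proof. `v ∉ Sh` is free in some class `U`, with a partner `e` (unique: `f2`, `f0`); `π v = e`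
(`Classical.choose`; `π v = v` if `v ∈ Sh`).  `e ∈ Sh`: `e` is not free in any class: not in `U` (`f0`, third part), not in
`U' ≠ U` since the free vertices of `U'` are not in `U` (`f2`), but `e ∈ U`.
Last statement: if `v, v' ∉ Sh` have the same place `e` and are free in the same class then `v = v'` (`f0`, second part;
the partner in the class is unique); so the map from `{v | v ∉ Sh, π v = p}` to the classes is injective, and there are
fewer than `s` classes (`few`). -/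
def S_Pi : Prop := ∀ (t n s : ℕ) (V : Type) [Finite V] (D : SimpleGraph V),
  En D t n s → ∃ π : V → V, IsPj D t n π ∧ ∀ p, ({v | v ∉ Sh D t n ∧ π v = p} : Set V).ncard ≤ s

/-- **Cu.** The cut lemma.

Proof. Write `hat A` for `hat (Sh D t n) π A`.  `hat A`, `hat A'` are disjoint (`A ∩ A' = ∅`, `A, A' ⊆ Sh`).  CLAIM: for every
`B ⊆ hat A'` and `Z = hat A \ A` `rk (hat A) B ≤ rk A B + s`.  Let `v ∈ Z`: `v ∉ Sh`, `π v ∈ A`, `v` is free in a class `U` with
partner `π v`.  For `z ∈ B`: `z ≠ π v` (`π v ∈ A` is in `Sh`; `z ∈ A'` or `z ∉ Sh`), so `z ~ v` iff `z ∉ U` (definition of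
`FP`).  So the rows of `Z` on `B` are the indicators of the sets `Uᶜ ∩ B` for fewer than `s` classes `U` (`few`):
`rk Z B ≤ s` (`LK.rk` is at most the number of rows; `rk_union`).
CLAIM twice: `rk (hat A) (hat A') ≤ rk A (hat A') + s = rk (hat A') A + s ≤ rk A' A + 2 s` (`rk_symm`; for the second one
exchange `A` and `A'`, `B = A`). -/
def S_Cu : Prop := ∀ (t n s : ℕ) (V : Type) [Finite V] (D : SimpleGraph V) (π : V → V),
  En D t n s → IsPj D t n π → ∀ A A' : Set V, Pt (Sh D t n) A A' →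
    LK.rk D (hat (Sh D t n) π A) (hat (Sh D t n) π A') ≤ LK.rk D A A' + 2 * s

/-! ### 4. There is no large matching left -/

/-- the conclusion of `S_Fr` -/
def C_Fr : Prop := ∀ t N h : ℕ, ∃ b : ℕ, ∀ (V : Type)
  (D : SimpleGraph V), JF D t → HB D N → TwF D → ∀ (n : ℕ) (U : Set V), UP D t n U →
    ∀ x y : ℕ → V, Sy D U b x y → (∀ k < b, ¬ FP D U (x k) (y k) ∧ ¬ FP D U (y k) (x k)) →
      ∃ (v w : V) (σ : ℕ → ℕ) (p q : ℕ → V), v ∉ U ∧ w ∉ U ∧ Incr h b σ ∧
        ∀ k < h, Cp D U (x (σ k)) (p k) ∧ Cp D U (x (σ k)) (q k) ∧ Op D v w (p k) (q k)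

/-- **Gk.** A large matching in `Sh` has many pairs which are not free.

Proof. Let `I` be the set of the `k < n + b` such that `x k, y k` is a free pair (in some order).  If `I` has at least
`n` elements: enumerate `n` of them; `f i` = the free vertex, `e i` = the other one; the `f i` are different (they are
in different edges of a matching: `IM`), so `Gc D t n U`.  But `f 0` is in `Sh` and in `FS D U`: a contradiction.  So at
least `b` indices are left: enumerate them increasingly. -/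
def S_Gk : Prop := ∀ (t n b : ℕ) (V : Type) (D : SimpleGraph V) (U : Set V),
  1 ≤ n → UP D t n U → ∀ x y : ℕ → V, Sy D U (n + b) x y →
    (∀ k < n + b, x k ∈ Sh D t n ∧ y k ∈ Sh D t n) →
    ∃ σ : ℕ → ℕ, Incr b (n + b) σ ∧
      ∀ k < b, ¬ FP D U (x (σ k)) (y (σ k)) ∧ ¬ FP D U (y (σ k)) (x (σ k))

/-- the conclusion of `S_OE` -/
def C_OE : Prop := ∀ t N m : ℕ, ∃ M : ℕ, ∀ (V : Type) (D : SimpleGraph V),
  HY D t N → ∀ (n : ℕ) (U : Set V), UP D t n U → ∀ (v w : V) (x y p q : ℕ → V), v ∉ U → w ∉ U →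
    Sy D U M x y →
    (∀ k < M, Cp D U (x k) (p k) ∧ Cp D U (x k) (q k) ∧ Op D v w (p k) (q k)) →
    ∃ σ : ℕ → ℕ, Incr m M σ ∧ OE D t n U v w m (p ∘ σ) (q ∘ σ) ∧
      ∀ k < m, (x (σ k) = p (σ k) ∧ y (σ k) = q (σ k)) ∨ (x (σ k) = q (σ k) ∧ y (σ k) = p (σ k))

/-- the conclusion of `S_Ne` -/
def C_Ne : Prop := ∀ t N : ℕ, ∃ M : ℕ, ∀ (V : Type) (D : SimpleGraph V), HY D t N →
  ∀ (U S : Set V) (o₁ o₂ : V) (P Q u : ℕ → V), RD D U S o₁ o₂ M P Q u (fun i j => i ≠ j) → False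

/-- the conclusion of `S_Le` -/
def C_Le : Prop := ∀ t N : ℕ, ∃ M : ℕ, ∀ (V : Type) (D : SimpleGraph V), HY D t N →
  ∀ (U S : Set V) (o₁ o₂ : V) (P Q u : ℕ → V), RD D U S o₁ o₂ M P Q u (fun i j => i ≤ j) → False

/-- the conclusion of `S_Cl` -/
def C_Cl : Prop := ∀ t N : ℕ, ∃ h : ℕ,
  ∀ (V : Type) (D : SimpleGraph V), HY D t N → ∀ (n : ℕ) (U U' : Set V) (w : V)
    (P Q u : ℕ → V), FD D U w h P Q u → UP D t n U' → (∀ k < h, u k ∈ U' ∧ P k ∈ U') →
      ∀ (v' w' : V) (p' q' : ℕ → V), v' ∉ U' → w' ∉ U' →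
        (∀ k < h, Cp D U' (u k) (p' k) ∧ Cp D U' (u k) (q' k) ∧ Op D v' w' (p' k) (q' k)) → False

/-- the conclusion of `ON.S_Ty` -/
def C_Ty : Prop := ∀ t N m : ℕ, ∃ M : ℕ, ∀ (V : Type) (D : SimpleGraph V), JF D t →
  FhS D N → FhD D N → ∀ (U : Set V) (w : V) (P Q u : ℕ → V), Sy D U M P Q →
    (∀ k < M, GC D U (P k)) → (∀ k < M, D.Adj w (P k) ∧ ¬ D.Adj w (Q k)) → (∀ k < M, u k ∉ U) →
    (∀ k < M, ∀ j < M, (D.Adj (u k) (P j) ↔ k = j)) →
    ∃ σ : ℕ → ℕ, Incr m M σ ∧ FD D U w m (P ∘ σ) (Q ∘ σ) (u ∘ σ)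

/-- **Eq.** The pattern `i = j` inside `Sh` is impossible.  (Uses `ON.S_U1` and the conclusions of Fr, Ty, Cl, and
`S_Gk`.)

Proof. `h` from Cl, `b` from Fr for `h`, `M` from Ty for `m = n + b`.  Ty (with `w = o₂`) gives `σ` and
`FD D U o₂ (n + b) P' Q' u'`, `P' = P ∘ σ` etc.; all `u' k`, `P' k` are in `Sh`.  `U'` = the class of the first `n` edges of the
induced matching `u' k, P' k` (`FD.up`, U1, `n ≥ 3 t + 3`); all `u' k, P' k`, `k < n + b`, are in `U'` (for `k < n` by U1; for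
`k ≥ n` they touch none of the first `n` edges).  Gk for `U'` and `u', P'` gives `b` indices which are not free pairs,
Fr gives `v', w'` outside `U'` and `h` of these indices with `p', q'`: this contradicts Cl (`FD` is inherited by
increasing subsequences). -/
def S_Eq : Prop := ON.S_U1 → C_Fr → C_Ty → C_Cl → S_Gk → ∀ t N n : ℕ, 3 * t + 3 ≤ n →
  ∃ M : ℕ, ∀ (V : Type) (D : SimpleGraph V), HY D t N → TwF D →
    ∀ (U : Set V) (o₁ o₂ : V) (P Q u : ℕ → V),
      RD D U (Sh D t n) o₁ o₂ M P Q u (fun i j => i = j) → False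

/-- the conclusion of `S_Eq` -/
def C_Eq : Prop := ∀ t N n : ℕ, 3 * t + 3 ≤ n →
  ∃ M : ℕ, ∀ (V : Type) (D : SimpleGraph V), HY D t N → TwF D →
    ∀ (U : Set V) (o₁ o₂ : V) (P Q u : ℕ → V),
      RD D U (Sh D t n) o₁ o₂ M P Q u (fun i j => i = j) → False

/-- **NM.** There is no large matching in `Sh`.  (Uses `ON.S_U1`, the conclusions of Fr, OE, Ne, Le, Eq, and
`ON.S_Pa`, `S_So`, `S_Gk`.)

Proof. `M₄` = the maximum of the numbers of Ne, Le, Eq; `M₅` from So for `M₄`; `c₁` from Pa for `M₅`;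
`m₆ = 2 β c₁ + 2`; `M₇` from OE for `m = m₆`; `b` from Fr for `h = M₇`; `n₁ = n + b`.
Let `x, y` be a matching of size `n₁` in `Sh`, `U` = the class of its first `n` edges (U1); all `x i, y i`, `i < n₁`, are in
`U` (for `i ≥ n` they touch none of these edges).  Gk gives `b` pairs which are not free, Fr gives `v, w ∉ U`, `σ`, `p, q`
(for `M₇` indices), OE gives `OE D t n U v w m₆ p q` (with new names), where `p k, q k ∈ Sh` because
`{p k, q k} = {x k, y k}`.  This gives `OD D t n U v w m₆ p p q` (`xI`, `xJ`, `xU` from `sy`; `cp`: `p k` and `q k` are in the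
component of `p k`), so Pa gives one of the three patterns `PD` of size `M₅`, So gives `RD` of size `M₄` with the same
relation: Eq, Ne, Le (`RD` is inherited by initial segments). -/
def S_NM : Prop := ON.S_U1 → C_Fr → C_OE → C_Ne → C_Le → C_Eq → ON.S_Pa → S_So → S_Gk →
  ∀ t N n : ℕ, 3 * t + 3 ≤ n → ∃ c₁ : ℕ, ∀ β : ℕ → ℕ, ∃ n₁ : ℕ, ∀ c₀ : ℕ, c₁ ≤ c₀ →
    ∀ (V : Type) [Finite V] (D : SimpleGraph V), HY D t N → TwF D →
      Link β c₀ (D.induce (Sh D t n)) →
        ∀ x y : ℕ → V, IM D n₁ x y → (∀ i < n₁, x i ∈ Sh D t n ∧ y i ∈ Sh D t n) → False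

/-! ### 5. The theorem -/

/-- **Theorem O1** for twin-free graphs.  (Assembly.) -/
def S_TO : Prop := ∀ t N s : ℕ, ∀ β : ℕ → ℕ, ∃ c₀ n₁ : ℕ,
  ∀ (V : Type) [Finite V] (D : SimpleGraph V), HY D t N → TwF D → NK D s → Link β c₀ D →
    ∃ S : Set V, (∀ x y : ℕ → V, (∀ i < n₁, x i ∈ S ∧ y i ∈ S) → ¬ IM D n₁ x y) ∧
      ∀ k, Lay (D.induce S) k Set.univ → Lay D (2 ^ (k + 2 * s) + (s + 1)) Set.univ

end Pool.Agent.MPd439b2.ON2
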